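import Mathlib

/-!
# Alternating forms on finitely generated abelian groups, and quadratic functions on groups of
class two with values in `ℚ/ℤ`
-/

set_option autoImplicit false

namespace Pool.Agent.H639

universe u v

/-- the group `ℚ/ℤ` -/
abbrev QZ : Type := AddCircle (1 : ℚ)

/-- every alternating form is the antisymmetrisation of a bilinear form -/
def HasSplit (B : Type v) [AddCommGroup B] : Prop :=
  ∀ ω : B →+ B →+ QZ, (∀ x, ω x x = 0) → ∃ β : B →+ B →+ QZ, ∀ x y, ω x y = β x y - β y x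

lemma alt_neg {B : Type v} [AddCommGroup B] (ω : B →+ B →+ QZ) (h : ∀ x, ω x x = 0) (x y : B) :
    ω y x = - ω x y := by
  have h1 := h (x + y)
  simp only [map_add, AddMonoidHom.add_apply, h, zero_add, add_zero] at h1
  first
    | exact (neg_eq_of_add_eq_zero_right h1).symm
    | exact (neg_eq_of_add_eq_zero_left h1).symm

lemma HasSplit.of_equiv {B : Type v} {B' : Type u} [AddCommGroup B] [AddCommGroup B']
    (h : HasSplit B) (f : B ≃+ B') : HasSplit B' := by
  intro ω hω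
  obtain ⟨β, hβ⟩ := h ((ω.comp f.toAddMonoidHom).flip.comp f.toAddMonoidHom).flip
    (fun x => hω (f x))
  refine ⟨((β.comp f.symm.toAddMonoidHom).flip.comp f.symm.toAddMonoidHom).flip, fun x y => ?_⟩
  have h1 := hβ (f.symm x) (f.symm y)
  simpa using h1

lemma HasSplit.prod {B : Type v} {B' : Type u} [AddCommGroup B] [AddCommGroup B']
    (h : HasSplit B) (h' : HasSplit B') : HasSplit (B × B') := by
  intro ω hω
  let i1 : B →+ B × B' := AddMonoidHom.inl B B'
  let i2 : B' →+ B × B' := AddMonoidHom.inr B B'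
  obtain ⟨β1, hβ1⟩ := h ((ω.comp i1).flip.comp i1).flip (fun x => hω (i1 x))
  obtain ⟨β2, hβ2⟩ := h' ((ω.comp i2).flip.comp i2).flip (fun x => hω (i2 x))
  let p1 : B × B' →+ B := AddMonoidHom.fst B B'
  let p2 : B × B' →+ B' := AddMonoidHom.snd B B'
  refine ⟨((β1.comp p1).flip.comp p1).flip + ((β2.comp p2).flip.comp p2).flip
    + ((ω.comp (i1.comp p1)).flip.comp (i2.comp p2)).flip, fun x y => ?_⟩
  have e1 := hβ1 x.1 y.1
  have e2 := hβ2 x.2 y.2
  simp only [AddMonoidHom.flip_apply, AddMonoidHom.comp_apply] at e1 e2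
  have hx : x = i1 x.1 + i2 x.2 := by simp [i1, i2]
  have hy : y = i1 y.1 + i2 y.2 := by simp [i1, i2]
  have e3 := alt_neg ω hω (i2 x.2) (i1 y.1)
  conv_lhs => rw [hx, hy]
  simp only [map_add, AddMonoidHom.add_apply, AddMonoidHom.flip_apply, AddMonoidHom.comp_apply]
  have hp1 : ∀ z : B × B', p1 z = z.1 := fun _ => rfl
  have hp2 : ∀ z : B × B', p2 z = z.2 := fun _ => rfl
  simp only [hp1, hp2]
  rw [e1, e2, e3]
  abel

lemma HasSplit.pi {ι : Type} [Fintype ι] [LinearOrder ι] (C : ι → Type) [∀ i, AddCommGroup (C i)]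
    (hC : ∀ i, ∃ c : C i, ∀ x : C i, ∃ k : ℤ, x = k • c) : HasSplit (∀ i, C i) := by
  classical
  intro ω hω
  let p : ι → (∀ i, C i) →+ (∀ i, C i) := fun k =>
    (AddMonoidHom.single C k).comp (Pi.evalAddMonoidHom C k)
  have hsum : ∀ x, ∑ k, p k x = x := by
    intro x
    funext i
    rw [Finset.sum_apply, Finset.sum_eq_single i]
    · simp [p]
    · intro k _ hk; simp [p, Pi.single_eq_of_ne (Ne.symm hk)]
    · intro h; exact absurd (Finset.mem_univ i) h
  have hkk : ∀ k x y, ω (p k x) (p k y) = 0 := by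
    intro k x y
    obtain ⟨c, hc⟩ := hC k
    obtain ⟨a, ha⟩ := hc (x k)
    obtain ⟨b, hb⟩ := hc (y k)
    have h1 : p k x = a • (AddMonoidHom.single C k c) := by
      rw [← map_zsmul, ← ha]; rfl
    have h2 : p k y = b • (AddMonoidHom.single C k c) := by
      rw [← map_zsmul, ← hb]; rfl
    rw [h1, h2, map_zsmul, map_zsmul, AddMonoidHom.smul_apply, hω]; simp
  let β : (∀ i, C i) →+ (∀ i, C i) →+ QZ :=
    ∑ k, ∑ l, if k < l then ((ω.comp (p k)).flip.comp (p l)).flip else 0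
  have hβ : ∀ x y, β x y = ∑ k, ∑ l, if k < l then ω (p k x) (p l y) else 0 := by
    intro x y
    simp only [β, AddMonoidHom.finsetSum_apply]
    refine Finset.sum_congr rfl fun k _ => Finset.sum_congr rfl fun l _ => ?_
    split_ifs <;> simp
  refine ⟨β, fun x y => ?_⟩
  have h1 : ω x y = ∑ k, ∑ l, ω (p k x) (p l y) := by
    conv_lhs => rw [← hsum x, ← hsum y]
    simp only [map_sum, AddMonoidHom.finsetSum_apply]
    exact Finset.sum_comm
  have h2 : β y x = ∑ k, ∑ l, if l < k then - ω (p k x) (p l y) else 0 := by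
    rw [hβ, Finset.sum_comm]
    refine Finset.sum_congr rfl fun k _ => Finset.sum_congr rfl fun l _ => ?_
    split_ifs
    · exact alt_neg ω hω _ _
    · rfl
  rw [h1, h2, hβ, ← Finset.sum_sub_distrib]
  refine Finset.sum_congr rfl fun k _ => ?_
  rw [← Finset.sum_sub_distrib]
  refine Finset.sum_congr rfl fun l _ => ?_
  rcases lt_trichotomy k l with h | h | h
  · rw [if_pos h, if_neg (not_lt.2 h.le), sub_zero]
  · subst h; rw [if_neg (lt_irrefl _), hkk]; simp
  · rw [if_neg (not_lt.2 h.le), if_pos h]; simp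

theorem HasSplit.of_fg (B : Type v) [AddCommGroup B] [AddGroup.FG B] : HasSplit B := by
  classical
  obtain ⟨n, ι, hι, p, _, ee, ⟨f⟩⟩ := AddCommGroup.equiv_free_prod_directSum_zmod B
  refine HasSplit.of_equiv ?_ f.symm
  refine HasSplit.prod ?_ ?_
  · refine HasSplit.of_equiv (B := Fin n → ℤ) ?_ (Finsupp.addEquivFunOnFinite).symm
    exact HasSplit.pi (fun _ : Fin n => ℤ) (fun _ => ⟨1, fun x => ⟨x, by simp⟩⟩)
  · let _ : LinearOrder ι := LinearOrder.lift' (Fintype.equivFin ι) (Fintype.equivFin ι).injective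
    refine HasSplit.of_equiv (B := ∀ i : ι, ZMod (p i ^ ee i)) ?_
      (DirectSum.addEquivProd (fun i : ι => ZMod (p i ^ ee i))).symm
    refine HasSplit.pi (fun i : ι => ZMod (p i ^ ee i)) (fun i => ⟨1, fun x => ?_⟩)
    obtain ⟨k, hk⟩ := ZMod.intCast_surjective x
    exact ⟨k, by rw [← hk]; simp⟩

/-! ### Extension of characters -/

theorem exists_ext {A : Type u} {D : Type v} [AddCommGroup A] [AddCommGroup D] (j : D →+ A)
    (F0 : D →+ QZ) (h : ∀ d, j d = 0 → F0 d = 0) : ∃ F : A →+ QZ, ∀ d, F (j d) = F0 d := by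
  let F1 : D ⧸ j.ker →+ QZ := QuotientAddGroup.lift j.ker F0 (fun d hd => h d hd)
  let k : D ⧸ j.ker →ₗ[ℤ] A := (QuotientAddGroup.kerLift j).toIntLinearMap
  have hk : Function.Injective k := QuotientAddGroup.kerLift_injective j
  obtain ⟨F, hF⟩ := CharacterModule.dual_surjective_of_injective k hk F1
  refine ⟨F, fun d => ?_⟩
  have h1 := DFunLike.congr_fun hF (QuotientAddGroup.mk d)
  exact h1

/-! ### Quadratic functions on groups of class two -/

/-- the underlying set of a twisted product -/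
structure Tw (P : Type u) where
  h : P
  t : QZ

section Tw

lemma Tw.ext' {P : Type u} {x y : Tw P} (h1 : x.h = y.h) (h2 : x.t = y.t) : x = y := by
  cases x; cases y; subst h1; subst h2; rfl

variable {P : Type u} [Group P] {B : Type v} [AddCommGroup B]

/-- the twisted product group -/
@[reducible] def twGroup (D : P → B) (hD : ∀ x y, D (x * y) = D x + D y) (β : B →+ B →+ QZ) :
    Group (Tw P) :=
  have hD1 : D 1 = 0 := by
    have := hD 1 1
    rw [mul_one] at this
    exact left_eq_add.1 this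
  have hDi : ∀ x, D x⁻¹ = - D x := by
    intro x
    have := hD x⁻¹ x
    rw [inv_mul_cancel, hD1] at this
    exact (neg_eq_of_add_eq_zero_left this.symm).symm
  { mul := fun x y => ⟨x.h * y.h, x.t + y.t - β (D x.h) (D y.h)⟩
    one := ⟨1, 0⟩
    inv := fun x => ⟨x.h⁻¹, - x.t - β (D x.h) (D x.h)⟩
    mul_assoc := by
      intro x y z
      refine Tw.ext' (mul_assoc _ _ _) ?_
      change x.t + y.t - β (D x.h) (D y.h) + z.t - β (D (x.h * y.h)) (D z.h)
        = x.t + (y.t + z.t - β (D y.h) (D z.h)) - β (D x.h) (D (y.h * z.h))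
      rw [hD, hD, map_add, map_add, AddMonoidHom.add_apply]; abel
    one_mul := by
      intro x
      refine Tw.ext' (one_mul _) ?_
      change 0 + x.t - β (D 1) (D x.h) = x.t
      rw [hD1, map_zero]; simp
    mul_one := by
      intro x
      refine Tw.ext' (mul_one _) ?_
      change x.t + 0 - β (D x.h) (D 1) = x.t
      rw [hD1, map_zero]; simp
    inv_mul_cancel := by
      intro x
      refine Tw.ext' (inv_mul_cancel _) ?_
      change - x.t - β (D x.h) (D x.h) + x.t - β (D x.h⁻¹) (D x.h) = 0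
      rw [hDi, map_neg, AddMonoidHom.neg_apply]; abel }

theorem exists_quad (Mp : Subgroup P) (hcent : ∀ m ∈ Mp, ∀ x, m * x = x * m)
    (D : P → B) (hD : ∀ x y, D (x * y) = D x + D y) (hDM : ∀ m ∈ Mp, D m = 0)
    (hcomm : ∀ x y : P, x * y * x⁻¹ * y⁻¹ ∈ Mp)
    (φ : Additive Mp →+ QZ) (β : B →+ B →+ QZ)
    (hβ : ∀ x y : P, φ (Additive.ofMul ⟨x * y * x⁻¹ * y⁻¹, hcomm x y⟩)
      = β (D x) (D y) - β (D y) (D x)) :
    ∃ F : P → QZ, (∀ x y, F (x * y) = F x + F y + β (D x) (D y)) ∧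
      ∀ m : Mp, F m = φ (Additive.ofMul m) := by
  have hD1 : D 1 = 0 := by
    have := hD 1 1
    rw [mul_one] at this
    exact left_eq_add.1 this
  have hDi : ∀ x, D x⁻¹ = - D x := by
    intro x
    have := hD x⁻¹ x
    rw [inv_mul_cancel, hD1] at this
    exact (neg_eq_of_add_eq_zero_left this.symm).symm
  let inst : Group (Tw P) := twGroup D hD β
  have hmul : ∀ x y : Tw P, x * y = ⟨x.h * y.h, x.t + y.t - β (D x.h) (D y.h)⟩ := fun _ _ => rfl
  have hone : (1 : Tw P) = ⟨1, 0⟩ := rfl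
  have hinv : ∀ x : Tw P, x⁻¹ = ⟨x.h⁻¹, - x.t - β (D x.h) (D x.h)⟩ := fun _ => rfl
  let instM : CommGroup Mp :=
    { (inferInstance : Group Mp) with
      mul_comm := fun a b => Subtype.ext (hcent a a.2 b) }
  -- the subgroup containing the commutators
  let K0 : Subgroup (Tw P) :=
    { carrier := {z | ∃ h : z.h ∈ Mp, φ (Additive.ofMul ⟨z.h, h⟩) + z.t = 0}
      one_mem' := by
        refine ⟨Mp.one_mem, ?_⟩
        have : (Additive.ofMul (⟨(1 : P), Mp.one_mem⟩ : Mp)) = 0 := rfl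
        change φ (Additive.ofMul (⟨(1 : P), Mp.one_mem⟩ : Mp)) + 0 = 0
        rw [this, map_zero, add_zero]
      mul_mem' := by
        rintro x y ⟨hx, hx'⟩ ⟨hy, hy'⟩
        refine ⟨Mp.mul_mem hx hy, ?_⟩
        change φ (Additive.ofMul (⟨x.h * y.h, Mp.mul_mem hx hy⟩ : Mp))
          + (x.t + y.t - β (D x.h) (D y.h)) = 0
        have h1 : (Additive.ofMul (⟨x.h * y.h, Mp.mul_mem hx hy⟩ : Mp))
          = Additive.ofMul (⟨x.h, hx⟩ : Mp) + Additive.ofMul (⟨y.h, hy⟩ : Mp) := rfl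
        rw [h1, map_add, hDM _ hx, map_zero, AddMonoidHom.zero_apply, sub_zero,
          show φ (Additive.ofMul (⟨x.h, hx⟩ : Mp)) + φ (Additive.ofMul (⟨y.h, hy⟩ : Mp))
            + (x.t + y.t) = (φ (Additive.ofMul (⟨x.h, hx⟩ : Mp)) + x.t)
            + (φ (Additive.ofMul (⟨y.h, hy⟩ : Mp)) + y.t) by abel, hx', hy', add_zero]
      inv_mem' := by
        rintro x ⟨hx, hx'⟩
        refine ⟨Mp.inv_mem hx, ?_⟩
        change φ (Additive.ofMul (⟨x.h⁻¹, Mp.inv_mem hx⟩ : Mp))
          + (- x.t - β (D x.h) (D x.h)) = 0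
        have h1 : (Additive.ofMul (⟨x.h⁻¹, Mp.inv_mem hx⟩ : Mp))
          = - Additive.ofMul (⟨x.h, hx⟩ : Mp) := rfl
        rw [h1, map_neg, hDM _ hx, map_zero, sub_zero,
          show -φ (Additive.ofMul (⟨x.h, hx⟩ : Mp)) + - x.t
            = -(φ (Additive.ofMul (⟨x.h, hx⟩ : Mp)) + x.t) by abel, hx', neg_zero] }
  have hK0 : commutator (Tw P) ≤ K0 := by
    rw [commutator_def, Subgroup.commutator_le]
    intro x _ y _
    rw [commutatorElement_def]
    have h1 : x * y * x⁻¹ * y⁻¹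
        = (⟨x.h * y.h * x.h⁻¹ * y.h⁻¹, - β (D x.h) (D y.h) + β (D y.h) (D x.h)⟩ : Tw P) := by
      rw [hinv x, hinv y]
      refine Tw.ext' rfl ?_
      change x.t + y.t - β (D x.h) (D y.h) + (- x.t - β (D x.h) (D x.h))
          - β (D (x.h * y.h)) (D x.h⁻¹) + (- y.t - β (D y.h) (D y.h))
          - β (D (x.h * y.h * x.h⁻¹)) (D y.h⁻¹) = _
      simp only [hD, hDi, map_add, map_neg, AddMonoidHom.add_apply, AddMonoidHom.neg_apply]
      abel
    rw [h1]
    refine ⟨hcomm x.h y.h, ?_⟩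
    change φ (Additive.ofMul (⟨x.h * y.h * x.h⁻¹ * y.h⁻¹, _⟩ : Mp))
      + (- β (D x.h) (D y.h) + β (D y.h) (D x.h)) = 0
    rw [hβ]; abel
  let j : Additive Mp × QZ →+ Additive (Abelianization (Tw P)) :=
    { toFun := fun z => Additive.ofMul (Abelianization.of (⟨((z.1.toMul : Mp) : P), z.2⟩ : Tw P))
      map_zero' := by
        have : (⟨(((0 : Additive Mp × QZ).1.toMul : Mp) : P), (0 : Additive Mp × QZ).2⟩ : Tw P)
          = 1 := rfl
        rw [this, map_one]; rfl
      map_add' := by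
        intro z w
        rw [← ofMul_mul, ← map_mul]
        congr 2
        refine Tw.ext' rfl ?_
        change z.2 + w.2 = z.2 + w.2 - β (D ((z.1.toMul : Mp) : P)) (D ((w.1.toMul : Mp) : P))
        rw [hDM _ (z.1.toMul : Mp).2, map_zero, AddMonoidHom.zero_apply, sub_zero] }
  have hj : ∀ z, j z = Additive.ofMul (Abelianization.of (⟨((z.1.toMul : Mp) : P), z.2⟩ : Tw P)) :=
    fun _ => rfl
  let F0 : Additive Mp × QZ →+ QZ :=
    φ.comp (AddMonoidHom.fst _ _) + AddMonoidHom.snd _ _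
  have hker : ∀ d, j d = 0 → F0 d = 0 := by
    intro d hd
    rw [hj] at hd
    have h1 : Abelianization.of (⟨((d.1.toMul : Mp) : P), d.2⟩ : Tw P) = 1 := hd
    have h2 : (⟨((d.1.toMul : Mp) : P), d.2⟩ : Tw P) ∈ commutator (Tw P) := by
      rw [← Abelianization.ker_of]; exact h1
    obtain ⟨h3, h4⟩ := hK0 h2
    exact h4
  obtain ⟨F', hF'⟩ := exists_ext j F0 hker
  refine ⟨fun x => F' (Additive.ofMul (Abelianization.of (⟨x, 0⟩ : Tw P))), ?_, ?_⟩
  · intro x y
    have h1 : (⟨x * y, 0⟩ : Tw P) = (⟨x, 0⟩ : Tw P) * ⟨y, 0⟩ * ⟨1, β (D x) (D y)⟩ := by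
      refine Tw.ext' (mul_one _).symm ?_
      change 0 = (0 : QZ) + 0 - β (D x) (D y) + β (D x) (D y) - β (D (x * y)) (D 1)
      rw [hD1, map_zero]; abel
    have h2 : F' (Additive.ofMul (Abelianization.of (⟨1, β (D x) (D y)⟩ : Tw P)))
        = β (D x) (D y) := by
      have h3 := hF' (0, β (D x) (D y))
      have h4 : F0 (0, β (D x) (D y)) = β (D x) (D y) := by
        simp [F0]
      rw [h4] at h3
      exact h3
    have h5 : (Additive.ofMul (Abelianization.of (⟨x * y, 0⟩ : Tw P)))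
        = Additive.ofMul (Abelianization.of (⟨x, 0⟩ : Tw P))
          + Additive.ofMul (Abelianization.of (⟨y, 0⟩ : Tw P))
          + Additive.ofMul (Abelianization.of (⟨1, β (D x) (D y)⟩ : Tw P)) := by
      rw [h1]; rfl
    change F' (Additive.ofMul (Abelianization.of (⟨x * y, 0⟩ : Tw P))) = _
    rw [h5, map_add, map_add, h2]
  · intro m
    have h3 := hF' (Additive.ofMul m, 0)
    have h4 : F0 (Additive.ofMul m, 0) = φ (Additive.ofMul m) := by simp [F0]
    rw [h4] at h3
    exact h3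

end Tw

end Pool.Agent.H639
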