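import Pool.Agent.H639.Fg
import Pool.Agent.H639.Alt

/-!
# The deep part: subgroups of weight at least `w`
-/

set_option autoImplicit false

namespace Pool.Agent.H639

universe u v w

variable {G : Type u} [Group G]

/-- the augmentation -/
noncomputable def aug : MonoidAlgebra ℤ G →+ ℤ := lin (fun _ => (1 : ℤ))

@[simp] lemma aug_e (g : G) : aug (e g) = 1 := by simp [aug]

lemma aug_mul (x y : MonoidAlgebra ℤ G) : aug (x * y) = aug x * aug y := by
  refine induction_e (P := fun x => aug (x * y) = aug x * aug y) x ?_ ?_ ?_ ?_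
  · simp
  · intro a b ha hb; rw [add_mul, map_add, map_add, ha, hb, add_mul]
  · intro a ha; rw [neg_mul, map_neg, map_neg, ha, neg_mul]
  · intro g
    refine induction_e (P := fun y => aug (e g * y) = aug (e g) * aug y) y ?_ ?_ ?_ ?_
    · simp
    · intro a b ha hb; rw [mul_add, map_add, map_add, ha, hb, mul_add]
    · intro a ha; rw [mul_neg, map_neg, map_neg, ha, mul_neg]
    · intro k; rw [← e_mul]; simp

section Kill

variable {T : Type v} {B : Type w} [AddCommGroup T] [AddCommGroup B] (F : G → T) (D : G → B)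
  (β : B →+ B →+ T) (H : Subgroup G)

lemma lin_D_mul (hD : ∀ x ∈ H, ∀ y ∈ H, D (x * y) = D x + D y) {x y : MonoidAlgebra ℤ G}
    (hx : x ∈ ZH H) (hy : y ∈ ZH H) :
    lin D (x * y) = aug x • lin D y + aug y • lin D x := by
  refine ZH_induction (P := fun x => lin D (x * y) = aug x • lin D y + aug y • lin D x)
    ?_ ?_ ?_ ?_ hx
  · simp
  · intro a b ha hb
    rw [add_mul, map_add, map_add, map_add, ha, hb, add_smul, smul_add]; abel
  · intro a ha
    rw [neg_mul, map_neg, map_neg, map_neg, ha, neg_smul, smul_neg]; abel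
  · intro g hg
    refine ZH_induction (P := fun y => lin D (e g * y) = aug (e g) • lin D y + aug y • lin D (e g))
      ?_ ?_ ?_ ?_ hy
    · simp
    · intro a b ha hb
      rw [mul_add, map_add, map_add, map_add, ha, hb, add_smul, smul_add]; abel
    · intro a ha
      rw [mul_neg, map_neg, map_neg, map_neg, ha, neg_smul, smul_neg]; abel
    · intro k hk
      rw [← e_mul, lin_e, lin_e, lin_e, aug_e, aug_e, one_smul, one_smul, hD g hg k hk]; abel

lemma lin_F_mul (hF : ∀ x ∈ H, ∀ y ∈ H, F (x * y) = F x + F y + β (D x) (D y))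
    {x y : MonoidAlgebra ℤ G} (hx : x ∈ ZH H) (hy : y ∈ ZH H) :
    lin F (x * y) = aug x • lin F y + aug y • lin F x + β (lin D x) (lin D y) := by
  refine ZH_induction (P := fun x => lin F (x * y)
    = aug x • lin F y + aug y • lin F x + β (lin D x) (lin D y)) ?_ ?_ ?_ ?_ hx
  · simp
  · intro a b ha hb
    rw [add_mul, map_add, map_add, map_add, map_add, map_add, ha, hb, add_smul, smul_add,
      AddMonoidHom.add_apply]; abel
  · intro a ha
    rw [neg_mul, map_neg, map_neg, map_neg, map_neg, map_neg, ha, neg_smul, smul_neg,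
      AddMonoidHom.neg_apply]; abel
  · intro g hg
    refine ZH_induction (P := fun y => lin F (e g * y)
      = aug (e g) • lin F y + aug y • lin F (e g) + β (lin D (e g)) (lin D y)) ?_ ?_ ?_ ?_ hy
    · simp
    · intro a b ha hb
      rw [mul_add, map_add, map_add, map_add, map_add, map_add, ha, hb, add_smul, smul_add]; abel
    · intro a ha
      rw [mul_neg, map_neg, map_neg, map_neg, map_neg, map_neg, ha, neg_smul, smul_neg]; abel
    · intro k hk
      rw [← e_mul, lin_e, lin_e, lin_e, lin_e, lin_e, aug_e, aug_e, one_smul, one_smul,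
        hF g hg k hk]; abel

/-- A quadratic function with the right vanishing kills the elements of weight at least `n`. -/
theorem kill (S : NS G) {w n : ℕ} (hwn : w < n)
    (hF : ∀ x ∈ H, ∀ y ∈ H, F (x * y) = F x + F y + β (D x) (D y))
    (hD : ∀ x ∈ H, ∀ y ∈ H, D (x * y) = D x + D y)
    (hDM : ∀ x ∈ H, x ∈ S.N (w + 1) → D x = 0)
    (hFn : ∀ x ∈ H, x ∈ S.N n → F x = 0)
    (h5 : 2 * w + 1 ≤ n ∨ β = 0)
    {x : MonoidAlgebra ℤ G} (hx : Del S H n x) : lin F x = 0 := by
  have hD1 : D 1 = 0 := by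
    have := hD 1 H.one_mem 1 H.one_mem
    rw [mul_one] at this
    exact left_eq_add.1 this
  have hF1 : F 1 = 0 := by
    have := hF 1 H.one_mem 1 H.one_mem
    rw [mul_one, hD1, map_zero, add_zero] at this
    exact left_eq_add.1 this
  have key : ∀ {m : ℕ} {x : MonoidAlgebra ℤ G}, Del S H m x →
      (1 ≤ m → aug x = 0) ∧ (w + 1 ≤ m → lin D x = 0) ∧ (n ≤ m → lin F x = 0) := by
    intro m x hx
    induction hx with
    | unit _ => exact ⟨by omega, by omega, by omega⟩
    | @gen i h hh hi =>
      refine ⟨fun _ => ?_, fun hm => ?_, fun hm => ?_⟩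
      · rw [map_sub, ← e_one, aug_e, aug_e, sub_self]
      · rw [map_sub, ← e_one, lin_e, lin_e, hD1, sub_zero]
        exact hDM h hh (S.anti hm hi)
      · rw [map_sub, ← e_one, lin_e, lin_e, hF1, sub_zero]
        exact hFn h hh (S.anti hm hi)
    | @mul i j x y hx hy h1 h2 =>
      obtain ⟨a1, d1, f1⟩ := h1
      obtain ⟨a2, d2, f2⟩ := h2
      refine ⟨fun hm => ?_, fun hm => ?_, fun hm => ?_⟩
      · rw [aug_mul]
        rcases Nat.eq_zero_or_pos i with h0 | h0
        · rw [a2 (by omega), mul_zero]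
        · rw [a1 h0, zero_mul]
      · rw [lin_D_mul D H hD hx.mem hy.mem]
        rcases Nat.eq_zero_or_pos i with h0 | h0
        · rw [a2 (by omega), d2 (by omega), smul_zero, zero_smul, add_zero]
        rcases Nat.eq_zero_or_pos j with h0' | h0'
        · rw [a1 (by omega), d1 (by omega), smul_zero, zero_smul, add_zero]
        · rw [a1 h0, a2 h0', zero_smul, zero_smul, add_zero]
      · rw [lin_F_mul F D β H hF hx.mem hy.mem]
        rcases Nat.eq_zero_or_pos i with h0 | h0
        · rw [a2 (by omega), d2 (by omega), f2 (by omega), smul_zero, zero_smul, map_zero,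
            add_zero, add_zero]
        rcases Nat.eq_zero_or_pos j with h0' | h0'
        · rw [a1 (by omega), d1 (by omega), f1 (by omega), smul_zero, zero_smul, map_zero,
            AddMonoidHom.zero_apply, add_zero, add_zero]
        · rw [a1 h0, a2 h0', zero_smul, zero_smul, add_zero, zero_add]
          rcases h5 with h5 | h5
          · rcases Nat.lt_or_ge w i with h6 | h6
            · rw [d1 h6, map_zero, AddMonoidHom.zero_apply]
            · rw [d2 (by omega), map_zero]
          · rw [h5]; rfl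
    | add _ _ h1 h2 =>
      refine ⟨fun hm => ?_, fun hm => ?_, fun hm => ?_⟩
      · rw [map_add, h1.1 hm, h2.1 hm, add_zero]
      · rw [map_add, h1.2.1 hm, h2.2.1 hm, add_zero]
      · rw [map_add, h1.2.2 hm, h2.2.2 hm, add_zero]
    | neg _ h =>
      refine ⟨fun hm => ?_, fun hm => ?_, fun hm => ?_⟩
      · rw [map_neg, h.1 hm, neg_zero]
      · rw [map_neg, h.2.1 hm, neg_zero]
      · rw [map_neg, h.2.2 hm, neg_zero]
    | zero => exact ⟨fun _ => map_zero _, fun _ => map_zero _, fun _ => map_zero _⟩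
    | mono _ hij h =>
      exact ⟨fun hm => h.1 (hm.trans hij), fun hm => h.2.1 (hm.trans hij),
        fun hm => h.2.2 (hm.trans hij)⟩
  exact (key hx).2.2 le_rfl

end Kill

/-- abelian case -/
theorem base_abel (S : NS G) (H : Subgroup G) {w n k : ℕ} (hwn : w < n) (hkn : k ≤ n)
    (hcomm : ∀ x ∈ H, ∀ y ∈ H, x * y * x⁻¹ * y⁻¹ ∈ S.N k)
    {g : G} (hg : g ∈ H) (h : Del S H n (e g - 1)) : g ∈ S.N k := by
  classical
  set K : Subgroup H := (S.N k).subgroupOf H with hK
  have hnorm : K.Normal := by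
    constructor
    intro x hx y
    rw [hK, Subgroup.mem_subgroupOf] at hx ⊢
    exact S.conj (y : G) hx
  let instC : CommGroup (H ⧸ K) :=
    { (inferInstance : Group (H ⧸ K)) with
      mul_comm := by
        intro a b
        obtain ⟨a, rfl⟩ := QuotientGroup.mk_surjective a
        obtain ⟨b, rfl⟩ := QuotientGroup.mk_surjective b
        rw [← QuotientGroup.mk_mul, ← QuotientGroup.mk_mul, QuotientGroup.eq, hK,
          Subgroup.mem_subgroupOf]
        have h1 := hcomm (b : G)⁻¹ (H.inv_mem b.2) (a : G)⁻¹ (H.inv_mem a.2)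
        have h2 : (((a * b)⁻¹ * (b * a) : H) : G)
            = (b : G)⁻¹ * (a : G)⁻¹ * ((b : G)⁻¹)⁻¹ * ((a : G)⁻¹)⁻¹ := by
          push_cast; group
        rw [h2]; exact h1 }
  let F : G → Additive (H ⧸ K) := fun x =>
    if hx : x ∈ H then Additive.ofMul (QuotientGroup.mk (⟨x, hx⟩ : H)) else 0
  have hFval : ∀ x (hx : x ∈ H), F x = Additive.ofMul (QuotientGroup.mk (⟨x, hx⟩ : H)) := by
    intro x hx; simp only [F, dif_pos hx]
  have hF : ∀ x ∈ H, ∀ y ∈ H, F (x * y) = F x + F y := by
    intro x hx y hy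
    rw [hFval _ (H.mul_mem hx hy), hFval x hx, hFval y hy]; rfl
  have hk := kill (T := Additive (H ⧸ K)) (B := Additive (H ⧸ K)) F (fun _ => 0) 0 H S (w := w)
    hwn (fun x hx y hy => by rw [hF x hx y hy]; simp) (fun _ _ _ _ => by simp)
    (fun _ _ _ => rfl) ?_ (Or.inr rfl) h
  · rw [map_sub, ← e_one, lin_e, lin_e] at hk
    have hF1 : F 1 = 0 := by
      have := hF 1 H.one_mem 1 H.one_mem
      rw [mul_one] at this
      exact left_eq_add.1 this
    rw [hF1, sub_zero, hFval g hg] at hk
    have h1 : (QuotientGroup.mk (⟨g, hg⟩ : H) : H ⧸ K) = 1 := hk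
    rw [QuotientGroup.eq_one_iff, hK, Subgroup.mem_subgroupOf] at h1
    exact h1
  · intro x hx hxn
    rw [hFval x hx]
    have h1 : (QuotientGroup.mk (⟨x, hx⟩ : H) : H ⧸ K) = 1 := by
      rw [QuotientGroup.eq_one_iff, hK, Subgroup.mem_subgroupOf]
      exact S.anti hkn hxn
    rw [h1]; rfl

end Pool.Agent.H639
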