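import Pool.Agent.H639.Base

/-!
# The deep part, class two case, and the main theorem for N-series
-/

set_option autoImplicit false

namespace Pool.Agent.H639

universe u v

section Omega

variable {P : Type u} [Group P] {B : Type v} [AddCommGroup B]

lemma exists_omega (Mp : Subgroup P) (hcent : ∀ m ∈ Mp, ∀ x, m * x = x * m)
    (hcomm : ∀ x y : P, x * y * x⁻¹ * y⁻¹ ∈ Mp)
    (D : P → B) (hD : ∀ x y, D (x * y) = D x + D y) (hsurj : Function.Surjective D)
    (hker : ∀ x, D x = 0 → x ∈ Mp) (φ : Additive Mp →+ QZ) :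
    ∃ ω : B →+ B →+ QZ, ∀ x y : P,
      ω (D x) (D y) = φ (Additive.ofMul ⟨x * y * x⁻¹ * y⁻¹, hcomm x y⟩) := by
  have hD1 : D 1 = 0 := by
    have := hD 1 1
    rw [mul_one] at this
    exact left_eq_add.1 this
  have hDi : ∀ x, D x⁻¹ = - D x := by
    intro x
    have := hD x⁻¹ x
    rw [inv_mul_cancel, hD1] at this
    exact (neg_eq_of_add_eq_zero_left this.symm).symm
  have hmem : ∀ x y, D x = D y → x⁻¹ * y ∈ Mp := by
    intro x y h
    apply hker
    rw [hD, hDi, h, neg_add_cancel]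
  let c : P → P → QZ := fun x y => φ (Additive.ofMul ⟨x * y * x⁻¹ * y⁻¹, hcomm x y⟩)
  have hcl : ∀ x x' y, D x = D x' → c x y = c x' y := by
    intro x x' y h
    have h1 := hmem x x' h
    have h2 : x' = x * (x⁻¹ * x') := by group
    have h3 : x' * y * x'⁻¹ * y⁻¹ = x * y * x⁻¹ * y⁻¹ := by
      have h4 := hcent _ h1 y
      calc x' * y * x'⁻¹ * y⁻¹ = x * ((x⁻¹ * x') * y) * (x⁻¹ * x')⁻¹ * x⁻¹ * y⁻¹ := by group
        _ = x * (y * (x⁻¹ * x')) * (x⁻¹ * x')⁻¹ * x⁻¹ * y⁻¹ := by rw [h4]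
        _ = _ := by group
    change φ _ = φ _
    congr 2
    exact Subtype.ext h3.symm
  have hcr : ∀ x y y', D y = D y' → c x y = c x y' := by
    intro x y y' h
    have h1 := hmem y y' h
    have h3 : x * y' * x⁻¹ * y'⁻¹ = x * y * x⁻¹ * y⁻¹ := by
      have h4 := hcent _ h1 x⁻¹
      calc x * y' * x⁻¹ * y'⁻¹ = x * y * ((y⁻¹ * y') * x⁻¹) * (y⁻¹ * y')⁻¹ * y⁻¹ := by group
        _ = x * y * (x⁻¹ * (y⁻¹ * y')) * (y⁻¹ * y')⁻¹ * y⁻¹ := by rw [h4]
        _ = _ := by group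
    change φ _ = φ _
    congr 2
    exact Subtype.ext h3.symm
  have hml : ∀ x x' y, c (x * x') y = c x y + c x' y := by
    intro x x' y
    have h1 := hcomm x' y
    have h3 : x * x' * y * (x * x')⁻¹ * y⁻¹
        = (x * y * x⁻¹ * y⁻¹) * (x' * y * x'⁻¹ * y⁻¹) := by
      have h4 := hcent _ h1 (y * x⁻¹ * y⁻¹)
      calc x * x' * y * (x * x')⁻¹ * y⁻¹
          = x * ((x' * y * x'⁻¹ * y⁻¹) * (y * x⁻¹ * y⁻¹)) := by group
        _ = x * ((y * x⁻¹ * y⁻¹) * (x' * y * x'⁻¹ * y⁻¹)) := by rw [h4]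
        _ = _ := by group
    change φ _ = φ _ + φ _
    rw [← map_add]
    congr 1
    exact congrArg Additive.ofMul (Subtype.ext h3)
  have hmr : ∀ x y y', c x (y * y') = c x y + c x y' := by
    intro x y y'
    have h1 := hcomm x y'
    have h3 : x * (y * y') * x⁻¹ * (y * y')⁻¹
        = (x * y * x⁻¹ * y⁻¹) * (x * y' * x⁻¹ * y'⁻¹) := by
      have h4 := hcent _ h1 y⁻¹
      calc x * (y * y') * x⁻¹ * (y * y')⁻¹
          = (x * y * x⁻¹) * ((x * y' * x⁻¹ * y'⁻¹) * y⁻¹) := by group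
        _ = (x * y * x⁻¹) * (y⁻¹ * (x * y' * x⁻¹ * y'⁻¹)) := by rw [h4]
        _ = _ := by group
    change φ _ = φ _ + φ _
    rw [← map_add]
    congr 1
    exact congrArg Additive.ofMul (Subtype.ext h3)
  choose r hr using hsurj
  let ω : B →+ B →+ QZ :=
    AddMonoidHom.mk' (fun b => AddMonoidHom.mk' (fun b' => c (r b) (r b')) (by
      intro b' b''
      rw [← hmr]
      apply hcr
      rw [hr, hD, hr, hr])) (by
      intro a b
      ext b'
      change c (r (a + b)) (r b') = c (r a) (r b') + c (r b) (r b')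
      rw [← hml]
      apply hcl
      rw [hr, hD, hr, hr])
  refine ⟨ω, fun x y => ?_⟩
  change c (r (D x)) (r (D y)) = c x y
  rw [hcl (r (D x)) x _ (hr _), hcr x (r (D y)) y (hr _)]

theorem exists_F [AddGroup.FG B] (Mp : Subgroup P) (hcent : ∀ m ∈ Mp, ∀ x, m * x = x * m)
    (hcomm : ∀ x y : P, x * y * x⁻¹ * y⁻¹ ∈ Mp)
    (D : P → B) (hD : ∀ x y, D (x * y) = D x + D y) (hsurj : Function.Surjective D)
    (hDM : ∀ m ∈ Mp, D m = 0) (hker : ∀ x, D x = 0 → x ∈ Mp) (φ : Additive Mp →+ QZ) :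
    ∃ (β : B →+ B →+ QZ) (F : P → QZ), (∀ x y, F (x * y) = F x + F y + β (D x) (D y)) ∧
      ∀ m : Mp, F m = φ (Additive.ofMul m) := by
  obtain ⟨ω, hω⟩ := exists_omega Mp hcent hcomm D hD hsurj hker φ
  have halt : ∀ b, ω b b = 0 := by
    intro b
    obtain ⟨x, rfl⟩ := hsurj b
    rw [hω]
    have h1 : (⟨x * x * x⁻¹ * x⁻¹, hcomm x x⟩ : Mp) = 1 := Subtype.ext (by
      change x * x * x⁻¹ * x⁻¹ = 1
      group)
    rw [h1]
    exact map_zero φ
  obtain ⟨β, hβ⟩ := HasSplit.of_fg B ω halt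
  obtain ⟨F, hF, hFm⟩ := exists_quad Mp hcent D hD hDM hcomm φ β (fun x y => by
    rw [← hω, hβ])
  exact ⟨β, F, hF, hFm⟩

end Omega

variable {G : Type u} [Group G]

theorem base (S : NS G) (T0 : Set G) (hT0 : T0.Finite) {w n : ℕ} (hw : 1 ≤ w) (hwn : w < n)
    (hHw : T0 ⊆ S.N w)
    (hc : ∀ x ∈ S.N w, ∀ y ∈ S.N (w + 1), x * y * x⁻¹ * y⁻¹ ∈ S.N n)
    {g : G} (hg : g ∈ Subgroup.closure T0) (h : Del S (Subgroup.closure T0) n (e g - 1)) :
    g ∈ S.N n := by
  classical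
  set H : Subgroup G := Subgroup.closure T0 with hH
  have hHN : H ≤ S.N w := (Subgroup.closure_le _).2 hHw
  have hcomm2 : ∀ x ∈ H, ∀ y ∈ H, x * y * x⁻¹ * y⁻¹ ∈ S.N (w + w) := fun x hx y hy =>
    S.comm (hHN hx) (hHN hy)
  by_cases hn : n ≤ 2 * w
  · exact base_abel S H hwn le_rfl (fun x hx y hy => S.anti (by omega) (hcomm2 x hx y hy)) hg h
  have hgw : g ∈ S.N (w + 1) :=
    base_abel S H hwn hwn (fun x hx y hy => S.anti (by omega) (hcomm2 x hx y hy)) hg h
  by_contra hgn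
  set K : Subgroup H := (S.N n).subgroupOf H with hK
  set K' : Subgroup H := (S.N (w + 1)).subgroupOf H with hK'
  have hnorm : K.Normal := by
    constructor
    intro x hx y
    rw [hK, Subgroup.mem_subgroupOf] at hx ⊢
    exact S.conj (y : G) hx
  have hnorm' : K'.Normal := by
    constructor
    intro x hx y
    rw [hK', Subgroup.mem_subgroupOf] at hx ⊢
    exact S.conj (y : G) hx
  have hKK' : K ≤ K' := by
    intro x hx
    rw [hK, Subgroup.mem_subgroupOf] at hx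
    rw [hK', Subgroup.mem_subgroupOf]
    exact S.anti hwn hx
  let instC : CommGroup (H ⧸ K') :=
    { (inferInstance : Group (H ⧸ K')) with
      mul_comm := by
        intro a b
        obtain ⟨a, rfl⟩ := QuotientGroup.mk_surjective a
        obtain ⟨b, rfl⟩ := QuotientGroup.mk_surjective b
        rw [← QuotientGroup.mk_mul, ← QuotientGroup.mk_mul, QuotientGroup.eq, hK',
          Subgroup.mem_subgroupOf]
        have h1 := hcomm2 (b : G)⁻¹ (H.inv_mem b.2) (a : G)⁻¹ (H.inv_mem a.2)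
        have h2 : (((a * b)⁻¹ * (b * a) : H) : G)
            = (b : G)⁻¹ * (a : G)⁻¹ * ((b : G)⁻¹)⁻¹ * ((a : G)⁻¹)⁻¹ := by
          push_cast; group
        rw [h2]; exact S.anti (by omega) h1 }
  have hfgH : Group.FG H := by
    rw [Group.fg_iff_subgroup_fg]
    exact ⟨hT0.toFinset, by rw [Set.Finite.coe_toFinset]⟩
  have hfgQ : Group.FG (H ⧸ K') := inferInstance
  have hfgB : AddGroup.FG (Additive (H ⧸ K')) := GroupFG.iff_add_fg.1 hfgQ
  let Mp : Subgroup (H ⧸ K) := K'.map (QuotientGroup.mk' K)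
  have hcent : ∀ m ∈ Mp, ∀ x, m * x = x * m := by
    rintro _ ⟨m, hm, rfl⟩ x
    obtain ⟨x, rfl⟩ := QuotientGroup.mk_surjective x
    rw [QuotientGroup.mk'_apply, ← QuotientGroup.mk_mul, ← QuotientGroup.mk_mul,
      QuotientGroup.eq, hK, Subgroup.mem_subgroupOf]
    have hm' : (m : G) ∈ S.N (w + 1) := by
      have := hm
      rw [hK'] at this
      exact Subgroup.mem_subgroupOf.1 this
    have h1 := hc (x : G)⁻¹ ((S.N w).inv_mem (hHN x.2)) (m : G)⁻¹ ((S.N (w + 1)).inv_mem hm')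
    have h2 : (((m * x)⁻¹ * (x * m) : H) : G)
        = (x : G)⁻¹ * (m : G)⁻¹ * ((x : G)⁻¹)⁻¹ * ((m : G)⁻¹)⁻¹ := by
      push_cast; group
    rw [h2]; exact h1
  have hcommP : ∀ x y : H ⧸ K, x * y * x⁻¹ * y⁻¹ ∈ Mp := by
    intro x y
    obtain ⟨x, rfl⟩ := QuotientGroup.mk_surjective x
    obtain ⟨y, rfl⟩ := QuotientGroup.mk_surjective y
    refine ⟨x * y * x⁻¹ * y⁻¹, ?_, rfl⟩
    change x * y * x⁻¹ * y⁻¹ ∈ K'
    rw [hK', Subgroup.mem_subgroupOf]
    exact S.anti (by omega) (hcomm2 (x : G) x.2 (y : G) y.2)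
  -- the map to B
  let D0 : H ⧸ K →* H ⧸ K' := QuotientGroup.map K K' (MonoidHom.id H) (by
    intro x hx; exact hKK' hx)
  have hD0 : ∀ x : H, D0 (QuotientGroup.mk x) = QuotientGroup.mk x := fun _ => rfl
  let D : H ⧸ K → Additive (H ⧸ K') := fun x => Additive.ofMul (D0 x)
  have hD : ∀ x y, D (x * y) = D x + D y := by
    intro x y
    change Additive.ofMul (D0 (x * y)) = _
    rw [map_mul]; rfl
  have hsurj : Function.Surjective D := by
    intro b
    obtain ⟨b, rfl⟩ := Additive.ofMul.surjective b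
    obtain ⟨b, rfl⟩ := QuotientGroup.mk_surjective b
    exact ⟨QuotientGroup.mk b, rfl⟩
  have hDM : ∀ m ∈ Mp, D m = 0 := by
    rintro _ ⟨m, hm, rfl⟩
    have h1 : (QuotientGroup.mk m : H ⧸ K') = 1 := (QuotientGroup.eq_one_iff m).2 hm
    change Additive.ofMul (QuotientGroup.mk m : H ⧸ K') = 0
    rw [h1]; rfl
  have hker : ∀ x, D x = 0 → x ∈ Mp := by
    intro x hx
    obtain ⟨x, rfl⟩ := QuotientGroup.mk_surjective x
    have h1 : (QuotientGroup.mk x : H ⧸ K') = 1 := hx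
    exact ⟨x, (QuotientGroup.eq_one_iff x).1 h1, rfl⟩
  -- the character
  let gb : Mp := ⟨QuotientGroup.mk ⟨g, hg⟩, ⟨⟨g, hg⟩, by
    change (⟨g, hg⟩ : H) ∈ K'
    rw [hK', Subgroup.mem_subgroupOf]; exact hgw, rfl⟩⟩
  have hgb : gb ≠ 1 := by
    intro h1
    have h2 : (QuotientGroup.mk (⟨g, hg⟩ : H) : H ⧸ K) = 1 := congrArg Subtype.val h1
    rw [QuotientGroup.eq_one_iff, hK, Subgroup.mem_subgroupOf] at h2
    exact hgn h2
  let instM : CommGroup Mp :=
    { (inferInstance : Group Mp) with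
      mul_comm := fun a b => Subtype.ext (hcent a a.2 b) }
  have hgb' : (Additive.ofMul gb : Additive Mp) ≠ 0 := hgb
  obtain ⟨φ, hφ⟩ := CharacterModule.exists_character_apply_ne_zero_of_ne_zero hgb'
  obtain ⟨β, F, hF, hFm⟩ := exists_F (B := Additive (H ⧸ K')) Mp hcent hcommP D hD hsurj hDM hker φ
  let FG : G → QZ := fun x => if hx : x ∈ H then F (QuotientGroup.mk (⟨x, hx⟩ : H)) else 0
  let DG : G → Additive (H ⧸ K') :=
    fun x => if hx : x ∈ H then D (QuotientGroup.mk (⟨x, hx⟩ : H)) else 0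
  have hFG : ∀ x (hx : x ∈ H), FG x = F (QuotientGroup.mk (⟨x, hx⟩ : H)) := by
    intro x hx; simp only [FG, dif_pos hx]
  have hDG : ∀ x (hx : x ∈ H), DG x = D (QuotientGroup.mk (⟨x, hx⟩ : H)) := by
    intro x hx; simp only [DG, dif_pos hx]
  have hF1 : F 1 = 0 := by
    have := hFm 1
    rw [OneMemClass.coe_one] at this
    rw [this]; exact map_zero φ
  have hk := kill FG DG β H S hwn ?_ ?_ ?_ ?_ (Or.inl (by omega)) h
  · rw [map_sub, ← e_one, lin_e, lin_e, hFG g hg, hFG 1 H.one_mem] at hk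
    have h1 : (QuotientGroup.mk (⟨(1 : G), H.one_mem⟩ : H) : H ⧸ K) = 1 := rfl
    rw [h1, hF1, sub_zero] at hk
    have h2 := hFm gb
    have h3 : F (gb : H ⧸ K) = 0 := hk
    rw [h3] at h2
    exact hφ h2.symm
  · intro x hx y hy
    rw [hFG _ (H.mul_mem hx hy), hFG x hx, hFG y hy, hDG x hx, hDG y hy, ← hF]
    rfl
  · intro x hx y hy
    rw [hDG _ (H.mul_mem hx hy), hDG x hx, hDG y hy, ← hD]
    rfl
  · intro x hx hxw
    rw [hDG x hx]
    apply hDM
    exact ⟨⟨x, hx⟩, hxw, rfl⟩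
  · intro x hx hxn
    rw [hFG x hx]
    have h1 : (QuotientGroup.mk (⟨x, hx⟩ : H) : H ⧸ K) = 1 := by
      rw [QuotientGroup.eq_one_iff, hK, Subgroup.mem_subgroupOf]; exact hxn
    rw [h1, hF1]

/-- **Main theorem for N-series.** If the rational dimension subgroups satisfy `R (i+1) ≤ N i`
for `1 ≤ i ≤ w`, and `[N w, N (w+1)] ≤ N n`, then the `n`-th integral dimension subgroup of the
N-series is `N n`. -/
theorem main_NS (S : NS G) {w n : ℕ} (hw : 1 ≤ w) (hwn : w < n)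
    (hR : ∀ i, 1 ≤ i → i ≤ w → S.R (i + 1) ≤ S.N i)
    (hc : ∀ x ∈ S.N w, ∀ y ∈ S.N (w + 1), x * y * x⁻¹ * y⁻¹ ∈ S.N n)
    {g : G} (hg : g ∈ S.N 1) (h : Del S (S.N 1) n (e g - 1)) : g ∈ S.N n := by
  classical
  -- restrict to a finitely generated subgroup
  obtain ⟨T, hT, hTN, hTk⟩ := h.finite
  set T0 : Set G := T ∪ {g} with hT0
  have hT0fin : T0.Finite := hT.union (Set.finite_singleton g)
  have hT0N : T0 ⊆ S.N 1 := Set.union_subset hTN (by simpa using hg)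
  have h1 : Del S (Subgroup.closure T0) n (e g - 1) :=
    hTk _ (Set.subset_union_left.trans Subgroup.subset_closure)
  have hgX : g ∈ Subgroup.closure T0 := Subgroup.subset_closure (Or.inr rfl)
  have hgR : g ∈ S.R (w + 1) :=
    S.R_anti hwn ⟨hg, NS.Sat_of_Del h⟩
  have hgm : e g - 1 ∈ ZH (Subgroup.closure T0 ⊓ S.R (w + 1)) :=
    (ZH _).sub_mem (e_mem_ZH ⟨hgX, hgR⟩) (one_mem_ZH _)
  have h2 := chain S T0 hT0fin hT0N w hR h1 hgm
  obtain ⟨T', hT', hTN', hTk'⟩ := h2.finite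
  set T1 : Set G := T' ∪ {g} with hT1
  have hT1fin : T1.Finite := hT'.union (Set.finite_singleton g)
  have hT1N : T1 ⊆ S.N w := by
    refine Set.union_subset (fun x hx => hR w hw le_rfl (hTN' hx).2) ?_
    rintro _ rfl
    exact hR w hw le_rfl hgR
  exact base S T1 hT1fin hw hwn hT1N hc (Subgroup.subset_closure (Or.inr rfl))
    (hTk' _ (Set.subset_union_left.trans Subgroup.subset_closure))

end Pool.Agent.H639
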