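import Mathlib

/-!
# N-series and the filtration of the integral group ring

Basic definitions: an N-series of a group, the filtration `Del` of the integral group ring by
products of differences, and the splitting lemma for an infinite cyclic complement.
-/

set_option autoImplicit false

namespace Pool.Agent.H639

universe u v

/-! ### Linear extension to monoid rings -/

section Lin

variable {M : Type u} {A : Type v} [AddCommGroup A]

/-- linear extension of a function on `M` to the free abelian group on `M` -/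
noncomputable def lin (f : M → A) : MonoidAlgebra ℤ M →+ A :=
  (Finsupp.liftAddHom (fun g => zmultiplesHom A (f g))).comp
    (MonoidAlgebra.coeffAddEquiv (R := ℤ) (M := M)).toAddMonoidHom

/-- the basis element of the monoid ring -/
noncomputable def e (g : M) : MonoidAlgebra ℤ M := MonoidAlgebra.single g 1

@[simp] lemma lin_e (f : M → A) (g : M) : lin f (e g) = f g := by
  simp [lin, e]

lemma single_eq (g : M) (r : ℤ) : (MonoidAlgebra.single g r : MonoidAlgebra ℤ M) = r • e g := by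
  simp [e]

lemma hom_ext_e {f g : MonoidAlgebra ℤ M →+ A} (h : ∀ m, f (e m) = g (e m)) : f = g := by
  refine MonoidAlgebra.addMonoidHom_ext ?_
  intro m r
  rw [single_eq, map_zsmul, map_zsmul, h]

lemma induction_e {P : MonoidAlgebra ℤ M → Prop} (x : MonoidAlgebra ℤ M)
    (h0 : P 0) (hadd : ∀ x y, P x → P y → P (x + y)) (hneg : ∀ x, P x → P (-x))
    (he : ∀ g, P (e g)) : P x := by
  have hn : ∀ (n : ℕ) (g : M), P (n • e g) := by
    intro n g
    induction n with
    | zero => simpa using h0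
    | succ n ih => rw [succ_nsmul]; exact hadd _ _ ih (he g)
  induction x using MonoidAlgebra.induction_linear with
  | zero => exact h0
  | add x y hx hy => exact hadd x y hx hy
  | single m r =>
    rw [single_eq]
    obtain ⟨n, rfl | rfl⟩ := r.eq_nat_or_neg
    · rw [natCast_zsmul]; exact hn n m
    · rw [neg_smul, natCast_zsmul]; exact hneg _ (hn n m)

end Lin

section Monoid

variable {M : Type u} [Monoid M]

@[simp] lemma e_one : e (1 : M) = 1 := rfl

lemma e_mul (g h : M) : e (g * h) = e g * e h := by simp [e]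

end Monoid

/-- An N-series of subgroups of a group: `N 0` is everything, the sequence decreases and
`[N i, N j] ≤ N (i + j)`. -/
structure NS (G : Type u) [Group G] where
  N : ℕ → Subgroup G
  zero : N 0 = ⊤
  anti : ∀ {i j : ℕ}, i ≤ j → N j ≤ N i
  comm : ∀ {i j : ℕ} {x y : G}, x ∈ N i → y ∈ N j → x * y * x⁻¹ * y⁻¹ ∈ N (i + j)

variable {G : Type u} [Group G]

lemma NS.conj (S : NS G) {i : ℕ} {x : G} (g : G) (hx : x ∈ S.N i) : g * x * g⁻¹ ∈ S.N i := by
  have h1 : g ∈ S.N 0 := by rw [S.zero]; trivial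
  have h2 := S.comm h1 hx
  rw [zero_add] at h2
  have h3 : g * x * g⁻¹ = (g * x * g⁻¹ * x⁻¹) * x := by group
  rw [h3]
  exact (S.N i).mul_mem h2 hx

/-- `Del S H n x`: the element `x` of the group ring is a sum of products of elements of `H` and
differences `h - 1` with `h ∈ H ∩ N i` of total weight at least `n`. -/
inductive Del (S : NS G) (H : Subgroup G) : ℕ → MonoidAlgebra ℤ G → Prop
  | unit {h : G} : h ∈ H → Del S H 0 (e h)
  | gen {i : ℕ} {h : G} : h ∈ H → h ∈ S.N i → Del S H i (e h - 1)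
  | mul {i j : ℕ} {x y : MonoidAlgebra ℤ G} :
      Del S H i x → Del S H j y → Del S H (i + j) (x * y)
  | add {i : ℕ} {x y : MonoidAlgebra ℤ G} : Del S H i x → Del S H i y → Del S H i (x + y)
  | neg {i : ℕ} {x : MonoidAlgebra ℤ G} : Del S H i x → Del S H i (-x)
  | zero {i : ℕ} : Del S H i 0
  | mono {i j : ℕ} {x : MonoidAlgebra ℤ G} : Del S H j x → i ≤ j → Del S H i x

/-- the group ring of a subgroup inside the group ring -/
noncomputable def ZH (H : Subgroup G) : AddSubgroup (MonoidAlgebra ℤ G) := AddSubgroup.closure (e '' (H : Set G))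

lemma e_mem_ZH {H : Subgroup G} {h : G} (hh : h ∈ H) : e h ∈ ZH H :=
  AddSubgroup.subset_closure ⟨h, hh, rfl⟩

lemma one_mem_ZH (H : Subgroup G) : (1 : MonoidAlgebra ℤ G) ∈ ZH H := e_mem_ZH H.one_mem

lemma ZH_mono {H K : Subgroup G} (h : H ≤ K) : ZH H ≤ ZH K :=
  AddSubgroup.closure_mono (Set.image_mono h)

lemma ZH_induction {H : Subgroup G} {P : MonoidAlgebra ℤ G → Prop}
    (h0 : P 0) (hadd : ∀ x y, P x → P y → P (x + y)) (hneg : ∀ x, P x → P (-x))
    (he : ∀ g ∈ H, P (e g)) {x : MonoidAlgebra ℤ G} (hx : x ∈ ZH H) : P x := by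
  induction hx using AddSubgroup.closure_induction with
  | mem x hx => obtain ⟨g, hg, rfl⟩ := hx; exact he g hg
  | zero => exact h0
  | add x y _ _ hx hy => exact hadd x y hx hy
  | neg x _ hx => exact hneg x hx

lemma mul_mem_ZH {H : Subgroup G} {x y : MonoidAlgebra ℤ G} (hx : x ∈ ZH H) (hy : y ∈ ZH H) :
    x * y ∈ ZH H := by
  refine ZH_induction (P := fun x => x * y ∈ ZH H) ?_ ?_ ?_ ?_ hx
  · simp
  · intro a b ha hb; rw [add_mul]; exact (ZH H).add_mem ha hb
  · intro a ha; rw [neg_mul]; exact (ZH H).neg_mem ha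
  · intro g hg
    refine ZH_induction (P := fun y => e g * y ∈ ZH H) ?_ ?_ ?_ ?_ hy
    · simp
    · intro a b ha hb; rw [mul_add]; exact (ZH H).add_mem ha hb
    · intro a ha; rw [mul_neg]; exact (ZH H).neg_mem ha
    · intro k hk; rw [← e_mul]; exact e_mem_ZH (H.mul_mem hg hk)

lemma Del.mem {S : NS G} {H : Subgroup G} {n : ℕ} {x : MonoidAlgebra ℤ G} (h : Del S H n x) :
    x ∈ ZH H := by
  induction h with
  | unit h => exact e_mem_ZH h
  | gen h _ => exact (ZH H).sub_mem (e_mem_ZH h) (one_mem_ZH H)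
  | mul _ _ h1 h2 => exact mul_mem_ZH h1 h2
  | add _ _ h1 h2 => exact (ZH H).add_mem h1 h2
  | neg _ h => exact (ZH H).neg_mem h
  | zero => exact (ZH H).zero_mem
  | mono _ _ h => exact h

lemma Del.of_mem {S : NS G} {H : Subgroup G} {x : MonoidAlgebra ℤ G} (h : x ∈ ZH H) :
    Del S H 0 x :=
  ZH_induction (P := fun x => Del S H 0 x) Del.zero (fun _ _ => Del.add) (fun _ => Del.neg)
    (fun _ => Del.unit) h

lemma Del.sub {S : NS G} {H : Subgroup G} {n : ℕ} {x y : MonoidAlgebra ℤ G}
    (hx : Del S H n x) (hy : Del S H n y) : Del S H n (x - y) := by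
  rw [sub_eq_add_neg]; exact hx.add hy.neg

lemma Del.mul_left {S : NS G} {H : Subgroup G} {n : ℕ} {x y : MonoidAlgebra ℤ G}
    (hx : x ∈ ZH H) (hy : Del S H n y) : Del S H n (x * y) := by
  have := (Del.of_mem (S := S) hx).mul hy
  rwa [zero_add] at this

lemma Del.mul_right {S : NS G} {H : Subgroup G} {n : ℕ} {x y : MonoidAlgebra ℤ G}
    (hx : Del S H n x) (hy : y ∈ ZH H) : Del S H n (x * y) := by
  have := hx.mul (Del.of_mem (S := S) hy)
  rwa [add_zero] at this

lemma Del.nsmul {S : NS G} {H : Subgroup G} {n : ℕ} {x : MonoidAlgebra ℤ G} (m : ℕ)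
    (hx : Del S H n x) : Del S H n (m • x) := by
  induction m with
  | zero => rw [zero_smul]; exact Del.zero
  | succ m ih => rw [succ_nsmul]; exact ih.add hx

lemma Del.mono_sub {S : NS G} {H K : Subgroup G} (hHK : H ≤ K) {n : ℕ} {x : MonoidAlgebra ℤ G}
    (h : Del S H n x) : Del S K n x := by
  induction h with
  | unit h => exact Del.unit (hHK h)
  | gen h h' => exact Del.gen (hHK h) h'
  | mul _ _ h1 h2 => exact h1.mul h2
  | add _ _ h1 h2 => exact h1.add h2
  | neg _ h => exact h.neg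
  | zero => exact Del.zero
  | mono _ hij h => exact h.mono hij

lemma Del.mono_series {S T : NS G} {H : Subgroup G} (hST : ∀ i, S.N i ≤ T.N i) {n : ℕ}
    {x : MonoidAlgebra ℤ G} (h : Del S H n x) : Del T H n x := by
  induction h with
  | unit h => exact Del.unit h
  | gen h h' => exact Del.gen h (hST _ h')
  | mul _ _ h1 h2 => exact h1.mul h2
  | add _ _ h1 h2 => exact h1.add h2
  | neg _ h => exact h.neg
  | zero => exact Del.zero
  | mono _ hij h => exact h.mono hij

/-- only finitely many group elements are used -/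
lemma Del.finite {S : NS G} {H : Subgroup G} {n : ℕ} {x : MonoidAlgebra ℤ G}
    (h : Del S H n x) :
    ∃ T : Set G, T.Finite ∧ T ⊆ H ∧ ∀ K : Subgroup G, T ⊆ K → Del S K n x := by
  induction h with
  | @unit h hh =>
    exact ⟨{h}, Set.finite_singleton h, by simpa using hh, fun K hK => Del.unit (hK rfl)⟩
  | @gen i h hh hi =>
    exact ⟨{h}, Set.finite_singleton h, by simpa using hh, fun K hK => Del.gen (hK rfl) hi⟩
  | mul _ _ h1 h2 =>
    obtain ⟨T1, f1, s1, k1⟩ := h1
    obtain ⟨T2, f2, s2, k2⟩ := h2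
    exact ⟨T1 ∪ T2, f1.union f2, Set.union_subset s1 s2, fun K hK =>
      (k1 K (Set.subset_union_left.trans hK)).mul (k2 K (Set.subset_union_right.trans hK))⟩
  | add _ _ h1 h2 =>
    obtain ⟨T1, f1, s1, k1⟩ := h1
    obtain ⟨T2, f2, s2, k2⟩ := h2
    exact ⟨T1 ∪ T2, f1.union f2, Set.union_subset s1 s2, fun K hK =>
      (k1 K (Set.subset_union_left.trans hK)).add (k2 K (Set.subset_union_right.trans hK))⟩
  | neg _ h =>
    obtain ⟨T, f, s, k⟩ := h
    exact ⟨T, f, s, fun K hK => (k K hK).neg⟩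
  | zero => exact ⟨∅, Set.finite_empty, Set.empty_subset _, fun K _ => Del.zero⟩
  | mono _ hij h =>
    obtain ⟨T, f, s, k⟩ := h
    exact ⟨T, f, s, fun K hK => (k K hK).mono hij⟩

/-! ### Conjugation -/

lemma e_mul_e_inv (g : G) : e g * e g⁻¹ = 1 := by rw [← e_mul, mul_inv_cancel, e_one]

lemma e_inv_mul_e (g : G) : e g⁻¹ * e g = 1 := by rw [← e_mul, inv_mul_cancel, e_one]

lemma Del.conj {S : NS G} {H : Subgroup G} {k : G} (hk : ∀ h ∈ H, k * h * k⁻¹ ∈ H) {n : ℕ}
    {x : MonoidAlgebra ℤ G} (h : Del S H n x) : Del S H n (e k * x * e k⁻¹) := by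
  induction h with
  | @unit h hh => rw [← e_mul, ← e_mul]; exact Del.unit (hk h hh)
  | @gen i h hh hi =>
    have h1 : e k * (e h - 1) * e k⁻¹ = e (k * h * k⁻¹) - 1 := by
      rw [mul_sub, sub_mul, mul_one, e_mul_e_inv, e_mul, e_mul]
    rw [h1]
    exact Del.gen (hk h hh) (S.conj k hi)
  | @mul i j x y _ _ h1 h2 =>
    have h3 : e k * (x * y) * e k⁻¹ = (e k * x * e k⁻¹) * (e k * y * e k⁻¹) := by
      calc e k * (x * y) * e k⁻¹ = e k * x * 1 * y * e k⁻¹ := by rw [mul_one]; simp only [mul_assoc]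
        _ = e k * x * (e k⁻¹ * e k) * y * e k⁻¹ := by rw [e_inv_mul_e]
        _ = _ := by simp only [mul_assoc]
    rw [h3]; exact h1.mul h2
  | add _ _ h1 h2 => rw [mul_add, add_mul]; exact h1.add h2
  | neg _ h => rw [mul_neg, neg_mul]; exact h.neg
  | zero => rw [mul_zero, zero_mul]; exact Del.zero
  | mono _ hij h => exact h.mono hij

lemma Del.conj_sub {S : NS G} {H : Subgroup G} {k : G} (hk : ∀ h ∈ H, k * h * k⁻¹ ∈ H) {i : ℕ}
    (hki : k ∈ S.N i) {n : ℕ} {x : MonoidAlgebra ℤ G} (h : Del S H n x) :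
    Del S H (i + n) (e k * x * e k⁻¹ - x) := by
  induction h with
  | @unit h hh =>
    have h1 : e k * e h * e k⁻¹ - e h = (e (k * h * k⁻¹ * h⁻¹) - 1) * e h := by
      rw [sub_mul, one_mul, ← e_mul, ← e_mul, ← e_mul]
      congr 2; group
    rw [h1]
    have h0 : h ∈ S.N 0 := by rw [S.zero]; trivial
    exact (Del.gen (H.mul_mem (hk h hh) (H.inv_mem hh)) (S.comm hki h0)).mul_right (e_mem_ZH hh)
  | @gen j h hh hj =>
    have h1 : e k * (e h - 1) * e k⁻¹ - (e h - 1) = (e (k * h * k⁻¹ * h⁻¹) - 1) * e h := by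
      rw [mul_sub, sub_mul, mul_one, e_mul_e_inv, sub_mul, one_mul, ← e_mul, ← e_mul, ← e_mul]
      have : k * h * k⁻¹ * h⁻¹ * h = k * h * k⁻¹ := by group
      rw [this]; abel
    rw [h1]
    exact (Del.gen (H.mul_mem (hk h hh) (H.inv_mem hh)) (S.comm hki hj)).mul_right (e_mem_ZH hh)
  | @mul a b x y hx hy h1 h2 =>
    have h3 : e k * (x * y) * e k⁻¹ - x * y
        = (e k * x * e k⁻¹ - x) * (e k * y * e k⁻¹) + x * (e k * y * e k⁻¹ - y) := by
      have h4 : e k * (x * y) * e k⁻¹ = (e k * x * e k⁻¹) * (e k * y * e k⁻¹) := by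
        calc e k * (x * y) * e k⁻¹ = e k * x * 1 * y * e k⁻¹ := by
              rw [mul_one]; simp only [mul_assoc]
          _ = e k * x * (e k⁻¹ * e k) * y * e k⁻¹ := by rw [e_inv_mul_e]
          _ = _ := by simp only [mul_assoc]
      rw [h4, sub_mul, mul_sub]; abel
    rw [h3]
    refine Del.add ?_ ?_
    · rw [← add_assoc]; exact h1.mul (hy.conj hk)
    · have : i + (a + b) = a + (i + b) := by ring
      rw [this]; exact hx.mul h2
  | @add j x y _ _ h1 h2 =>
    have h3 : e k * (x + y) * e k⁻¹ - (x + y)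
        = (e k * x * e k⁻¹ - x) + (e k * y * e k⁻¹ - y) := by
      rw [mul_add, add_mul]; abel
    rw [h3]; exact h1.add h2
  | @neg j x _ h =>
    have h3 : e k * (-x) * e k⁻¹ - (-x) = -(e k * x * e k⁻¹ - x) := by
      rw [mul_neg, neg_mul]; abel
    rw [h3]; exact h.neg
  | zero =>
    rw [mul_zero, zero_mul, sub_zero]; exact Del.zero
  | mono _ hij h => exact h.mono (by omega)

end Pool.Agent.H639
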