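import Pool.Agent.H639.Mon

/-!
# The quotient group of a monoid with a Y-filtration and its N-series
-/

set_option autoImplicit false

namespace Pool.Agent.H639

universe u v

/-! ### Projection to a normal subgroup -/

section Coset

variable {G : Type u} [Group G]

open Classical in
/-- the part of an element of the group ring supported on `H` -/
noncomputable def part (H : Subgroup G) : MonoidAlgebra ℤ G →+ MonoidAlgebra ℤ G :=
  lin (fun g => if g ∈ H then e g else 0)

lemma part_e_of_mem {H : Subgroup G} {g : G} (h : g ∈ H) : part H (e g) = e g := by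
  simp [part, h]

lemma part_e_of_notMem {H : Subgroup G} {g : G} (h : g ∉ H) : part H (e g) = 0 := by
  simp [part, h]

lemma part_of_mem {H : Subgroup G} {x : MonoidAlgebra ℤ G} (h : x ∈ ZH H) : part H x = x := by
  refine ZH_induction (P := fun x => part H x = x) ?_ ?_ ?_ ?_ h
  · simp
  · intro a b ha hb; rw [map_add, ha, hb]
  · intro a ha; rw [map_neg, ha]
  · intro g hg; exact part_e_of_mem hg

lemma part_mul_left {H : Subgroup G} {h : G} (hh : h ∈ H) (z : MonoidAlgebra ℤ G) :
    part H (e h * z) = e h * part H z := by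
  refine induction_e (P := fun z => part H (e h * z) = e h * part H z) z ?_ ?_ ?_ ?_
  · simp
  · intro a b ha hb; rw [mul_add, map_add, map_add, mul_add, ha, hb]
  · intro a ha; rw [mul_neg, map_neg, map_neg, mul_neg, ha]
  · intro k
    rw [← e_mul]
    by_cases hk : k ∈ H
    · rw [part_e_of_mem hk, part_e_of_mem (H.mul_mem hh hk), e_mul]
    · rw [part_e_of_notMem hk, part_e_of_notMem, mul_zero]
      intro h1
      apply hk
      have := H.mul_mem (H.inv_mem hh) h1
      rwa [inv_mul_cancel_left] at this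

lemma part_conj {H : Subgroup G} [hH : H.Normal] (g : G) (z : MonoidAlgebra ℤ G) :
    part H (e g * z) = e g * part H (z * e g) * e g⁻¹ := by
  refine induction_e (P := fun z => part H (e g * z) = e g * part H (z * e g) * e g⁻¹) z
    ?_ ?_ ?_ ?_
  · simp
  · intro a b ha hb; rw [mul_add, map_add, add_mul, map_add, mul_add, add_mul, ha, hb]
  · intro a ha; rw [mul_neg, map_neg, neg_mul, map_neg, mul_neg, neg_mul, ha]
  · intro k
    rw [← e_mul, ← e_mul]
    by_cases hk : g * k ∈ H
    · have hk' : k * g ∈ H := by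
        have := hH.conj_mem _ hk g⁻¹
        have h2 : g⁻¹ * (g * k) * g⁻¹⁻¹ = k * g := by group
        rwa [h2] at this
      rw [part_e_of_mem hk, part_e_of_mem hk', ← e_mul, ← e_mul]
      congr 1; group
    · have hk' : k * g ∉ H := by
        intro h1
        apply hk
        have := hH.conj_mem _ h1 g
        have h2 : g * (k * g) * g⁻¹ = g * k := by group
        rwa [h2] at this
      rw [part_e_of_notMem hk, part_e_of_notMem hk']; simp

lemma NS.normal (S : NS G) (i : ℕ) : (S.N i).Normal := ⟨fun n hn g => S.conj g hn⟩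

theorem Del_N1 (S : NS G) {n : ℕ} {x : MonoidAlgebra ℤ G} (hx : Del S ⊤ n x)
    (hxm : x ∈ ZH (S.N 1)) : Del S (S.N 1) n x := by
  have := S.normal 1
  have hconj : ∀ k : G, ∀ h ∈ S.N 1, k * h * k⁻¹ ∈ S.N 1 := fun k h hh => S.conj k hh
  have key : ∀ {n : ℕ} {x : MonoidAlgebra ℤ G}, Del S ⊤ n x → ∀ (m : ℕ) (y : MonoidAlgebra ℤ G),
      (∀ t : G, Del S (S.N 1) m (part (S.N 1) (y * e t))) →
      ∀ t : G, Del S (S.N 1) (n + m) (part (S.N 1) (x * y * e t)) := by
    intro n x hx
    induction hx with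
    | @unit g _ =>
      intro m y hy t
      rw [mul_assoc (e g) y (e t), part_conj, mul_assoc y (e t) (e g), ← e_mul, zero_add]
      exact (hy (t * g)).conj (hconj g)
    | @gen i g _ hi =>
      intro m y hy t
      rcases Nat.eq_zero_or_pos i with rfl | h0
      · rw [sub_mul, one_mul, sub_mul, map_sub, zero_add]
        refine Del.sub ?_ (hy t)
        rw [mul_assoc (e g) y (e t), part_conj, mul_assoc y (e t) (e g), ← e_mul]
        exact (hy (t * g)).conj (hconj g)
      · have hg : g ∈ S.N 1 := S.anti h0 hi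
        have h1 : part (S.N 1) ((e g - 1) * y * e t) = (e g - 1) * part (S.N 1) (y * e t) := by
          rw [sub_mul, one_mul, sub_mul, map_sub, mul_assoc, part_mul_left hg, sub_mul, one_mul]
        rw [h1]
        exact (Del.gen hg hi).mul (hy t)
    | @mul i j x y _ _ h1 h2 =>
      intro m z hz t
      rw [mul_assoc x y z, add_assoc]
      exact h1 (j + m) (y * z) (fun t => h2 m z hz t) t
    | add _ _ h1 h2 =>
      intro m z hz t
      rw [add_mul, add_mul, map_add]
      exact (h1 m z hz t).add (h2 m z hz t)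
    | neg _ h =>
      intro m z hz t
      rw [neg_mul, neg_mul, map_neg]
      exact (h m z hz t).neg
    | zero =>
      intro m z hz t
      rw [zero_mul, zero_mul, map_zero]; exact Del.zero
    | mono _ hij h =>
      intro m z hz t
      exact (h m z hz t).mono (by omega)
  have h1 := key hx 0 1 (fun t => by
    rw [one_mul]
    by_cases ht : t ∈ S.N 1
    · rw [part_e_of_mem ht]; exact Del.unit ht
    · rw [part_e_of_notMem ht]; exact Del.zero) 1
  rw [mul_one, e_one, mul_one, part_of_mem hxm] at h1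
  exact h1.mono (by omega)

/-- an element of positive weight dies in the group ring of `G ⧸ N 1` -/
lemma Del_coset (S : NS G) {n : ℕ} {x : MonoidAlgebra ℤ G} (hx : Del S ⊤ n x) (hn : 1 ≤ n) :
    lin (fun g => (e (QuotientGroup.mk g : G ⧸ S.N 1) : MonoidAlgebra ℤ (G ⧸ S.N 1))) x = 0 := by
  have := S.normal 1
  set ρ : MonoidAlgebra ℤ G →+ MonoidAlgebra ℤ (G ⧸ S.N 1) :=
    lin (fun g => (e (QuotientGroup.mk g : G ⧸ S.N 1))) with hρ
  have hρe : ∀ g, ρ (e g) = e (QuotientGroup.mk g : G ⧸ S.N 1) := fun g => by rw [hρ, lin_e]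
  have hρm : ∀ x y, ρ (x * y) = ρ x * ρ y := by
    intro x y
    refine induction_e (P := fun x => ρ (x * y) = ρ x * ρ y) x ?_ ?_ ?_ ?_
    · simp
    · intro a b ha hb; rw [add_mul, map_add, map_add, ha, hb, add_mul]
    · intro a ha; rw [neg_mul, map_neg, map_neg, ha, neg_mul]
    · intro g
      refine induction_e (P := fun y => ρ (e g * y) = ρ (e g) * ρ y) y ?_ ?_ ?_ ?_
      · simp
      · intro a b ha hb; rw [mul_add, map_add, map_add, ha, hb, mul_add]
      · intro a ha; rw [mul_neg, map_neg, map_neg, ha, mul_neg]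
      · intro k; rw [← e_mul, hρe, hρe, hρe, ← e_mul]; rfl
  have key : ∀ {n : ℕ} {x : MonoidAlgebra ℤ G}, Del S ⊤ n x → 1 ≤ n → ρ x = 0 := by
    intro n x hx
    induction hx with
    | unit _ => intro h; omega
    | @gen i h _ hi =>
      intro h0
      have h1 : (QuotientGroup.mk h : G ⧸ S.N 1) = 1 :=
        (QuotientGroup.eq_one_iff h).2 (S.anti h0 hi)
      rw [map_sub, ← e_one, hρe, hρe, h1]; simp
    | @mul i j x y _ _ h1 h2 =>
      intro h0
      rw [hρm]
      rcases Nat.eq_zero_or_pos i with h | h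
      · rw [h2 (by omega), mul_zero]
      · rw [h1 h, zero_mul]
    | add _ _ h1 h2 => intro h0; rw [map_add, h1 h0, h2 h0, add_zero]
    | neg _ h => intro h0; rw [map_neg, h h0, neg_zero]
    | zero => intro _; exact map_zero _
    | mono _ hij h => intro h0; exact h (h0.trans hij)
  exact key hx hn

lemma e_injective {M : Type u} : Function.Injective (e : M → MonoidAlgebra ℤ M) := by
  intro a b h
  unfold e at h
  exact (MonoidAlgebra.single_left_inj one_ne_zero).1 h

/-- if a positive multiple of `e x - e y` has positive weight then `y⁻¹ x ∈ N 1` -/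
lemma mem_N1_of_Del (S : NS G) {n m : ℕ} (hn : 1 ≤ n) (hm : 1 ≤ m) {g : G}
    (hx : Del S ⊤ n (m • (e g - 1))) : g ∈ S.N 1 := by
  have h1 := Del_coset S hx hn
  rw [map_nsmul, map_sub, ← e_one, lin_e, lin_e] at h1
  have h2 : e (QuotientGroup.mk g : G ⧸ S.N 1) = e (QuotientGroup.mk 1 : G ⧸ S.N 1) := by
    by_contra hne
    have h3 : (QuotientGroup.mk g : G ⧸ S.N 1) ≠ QuotientGroup.mk 1 := fun h => hne (by rw [h])
    have h4 := congrArg (fun z : MonoidAlgebra ℤ (G ⧸ S.N 1) => z.coeff (QuotientGroup.mk g)) h1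
    simp [e, h3.symm] at h4
    omega
  have h3 := e_injective h2
  rw [eq_comm, QuotientGroup.eq] at h3
  simpa using h3

end Coset

/-! ### The quotient group -/

section Quot

variable {M : Type u} [Monoid M] (Y : YFiltration M)

/-- the quotient of the monoid by the `K`-th congruence -/
abbrev YFiltration.Q (K : ℕ) : Type u := (Y.r K).Quotient

/-- the projection to the quotient -/
def YFiltration.pr (K : ℕ) : M →* Y.Q K := (Y.r K).mk'

lemma YFiltration.pr_surj (K : ℕ) : Function.Surjective (Y.pr K) := Con.mk'_surjective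

lemma YFiltration.pr_eq0 {K : ℕ} {x y : M} : Y.pr K x = Y.pr K y ↔ Y.r K x y := (Y.r K).eq

lemma YFiltration.exists_left_inv (K : ℕ) (q : Y.Q K) : ∃ p : Y.Q K, p * q = 1 := by
  obtain ⟨x, rfl⟩ := Y.pr_surj K q
  obtain ⟨y, _, hy⟩ := Y.inv K x
  refine ⟨Y.pr K y, ?_⟩
  rw [← map_mul, ← map_one (Y.pr K)]
  exact Y.pr_eq0.2 hy

noncomputable instance YFiltration.instGroup (K : ℕ) : Group (Y.Q K) :=
  { (inferInstance : Monoid (Y.Q K)) with
    inv := fun q => (Y.exists_left_inv K q).choose
    inv_mul_cancel := fun q => (Y.exists_left_inv K q).choose_spec }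

lemma YFiltration.pr_eq {K : ℕ} {x y : M} : Y.pr K x = Y.pr K y ↔ Y.r K x y := (Y.r K).eq

/-- if `x ~ y` at level `i ≤ K` then `pr x * (pr y)⁻¹` is represented by an element of level `i` -/
lemma YFiltration.div_mem {K i : ℕ} (hi : i ≤ K) {x y : M} (h : Y.r i x y) :
    ∃ z : M, Y.pr K x * (Y.pr K y)⁻¹ = Y.pr K z ∧ Y.r i z 1 := by
  obtain ⟨y', h1, h2⟩ := Y.inv K y
  refine ⟨x * y', ?_, ?_⟩
  · have h3 : (Y.pr K y)⁻¹ = Y.pr K y' := by
      rw [inv_eq_iff_mul_eq_one, ← map_mul, ← map_one (Y.pr K)]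
      exact Y.pr_eq.2 h1
    rw [h3, map_mul]
  · exact (Y.r i).trans ((Y.r i).mul h ((Y.r i).refl y')) (Y.anti hi h1)

/-- the N-series of the quotient group -/
noncomputable def YFiltration.ns (K : ℕ) : NS (Y.Q K) where
  N i := if i = 0 then ⊤ else
    { carrier := {q | ∃ x : M, q = Y.pr K x ∧ Y.r (min i K) x 1}
      one_mem' := ⟨1, (map_one _).symm, (Y.r _).refl 1⟩
      mul_mem' := by
        rintro a b ⟨x, rfl, hx⟩ ⟨y, rfl, hy⟩
        refine ⟨x * y, (map_mul _ _ _).symm, ?_⟩
        have := (Y.r (min i K)).mul hx hy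
        rwa [mul_one] at this
      inv_mem' := by
        rintro a ⟨x, rfl, hx⟩
        obtain ⟨z, hz, hz'⟩ := Y.div_mem (min_le_right i K) ((Y.r _).symm hx)
        refine ⟨z, ?_, hz'⟩
        rw [← hz, map_one, one_mul] }
  zero := by simp
  anti := by
    intro i j hij
    by_cases hi : i = 0
    · rw [if_pos hi]; exact le_top
    · have hj : j ≠ 0 := by omega
      rw [if_neg hi, if_neg hj]
      rintro q ⟨x, rfl, hx⟩
      exact ⟨x, rfl, Y.anti (min_le_min_right K hij) hx⟩
  comm := by
    intro i j a b ha hb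
    by_cases hi : i = 0
    · subst hi
      rw [zero_add]
      by_cases hj : j = 0
      · rw [if_pos hj]; trivial
      · rw [if_neg hj] at hb ⊢
        obtain ⟨x, rfl⟩ := Y.pr_surj K a
        obtain ⟨y, rfl, hy⟩ := hb
        have h1 : Y.r (min j K) (x * y) (y * x) := by
          have h2 := (Y.r (min j K)).mul ((Y.r (min j K)).refl x) hy
          have h3 := (Y.r (min j K)).mul hy ((Y.r (min j K)).refl x)
          rw [mul_one] at h2
          rw [one_mul] at h3
          exact (Y.r _).trans h2 ((Y.r _).symm h3)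
        obtain ⟨z, hz, hz'⟩ := Y.div_mem (min_le_right j K) h1
        refine ⟨z, ?_, hz'⟩
        rw [← hz, map_mul, map_mul]; group
    · rw [if_neg hi] at ha
      by_cases hj : j = 0
      · subst hj
        rw [add_zero, if_neg hi]
        obtain ⟨x, rfl, hx⟩ := ha
        obtain ⟨y, rfl⟩ := Y.pr_surj K b
        have h1 : Y.r (min i K) (x * y) (y * x) := by
          have h2 := (Y.r (min i K)).mul ((Y.r (min i K)).refl y) hx
          have h3 := (Y.r (min i K)).mul hx ((Y.r (min i K)).refl y)
          rw [mul_one] at h2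
          rw [one_mul] at h3
          exact (Y.r _).trans h3 ((Y.r _).symm h2)
        obtain ⟨z, hz, hz'⟩ := Y.div_mem (min_le_right i K) h1
        refine ⟨z, ?_, hz'⟩
        rw [← hz, map_mul, map_mul]; group
      · rw [if_neg hj] at hb
        rw [if_neg (by omega : i + j ≠ 0)]
        obtain ⟨x, rfl, hx⟩ := ha
        obtain ⟨y, rfl, hy⟩ := hb
        have h1 : Y.r (min (i + j) K) (x * y) (y * x) := by
          rcases le_total K i with hKi | hKi
          · rw [min_eq_right hKi] at hx
            have h2 := (Y.r K).mul hx ((Y.r K).refl y)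
            have h3 := (Y.r K).mul ((Y.r K).refl y) hx
            rw [one_mul] at h2
            rw [mul_one] at h3
            exact Y.anti (min_le_right _ _) ((Y.r K).trans h2 ((Y.r K).symm h3))
          rcases le_total K j with hKj | hKj
          · rw [min_eq_right hKj] at hy
            have h2 := (Y.r K).mul hy ((Y.r K).refl x)
            have h3 := (Y.r K).mul ((Y.r K).refl x) hy
            rw [one_mul] at h2
            rw [mul_one] at h3
            exact Y.anti (min_le_right _ _) ((Y.r K).trans h3 ((Y.r K).symm h2))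
          · rw [min_eq_left hKi] at hx
            rw [min_eq_left hKj] at hy
            exact Y.anti (min_le_left _ _) (Y.comm (by omega) (by omega) hx hy)
        obtain ⟨z, hz, hz'⟩ := Y.div_mem (min_le_right (i + j) K) h1
        refine ⟨z, ?_, hz'⟩
        rw [← hz, map_mul, map_mul]; group

lemma YFiltration.mem_ns {K i : ℕ} (hi : 1 ≤ i) (hiK : i ≤ K) {x : M} :
    Y.pr K x ∈ (Y.ns K).N i ↔ Y.r i x 1 := by
  have h0 : i ≠ 0 := by omega
  have h1 : (Y.ns K).N i = if i = 0 then ⊤ else
    { carrier := {q | ∃ x : M, q = Y.pr K x ∧ Y.r (min i K) x 1}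
      one_mem' := ⟨1, (map_one _).symm, (Y.r _).refl 1⟩
      mul_mem' := by
        rintro a b ⟨x, rfl, hx⟩ ⟨y, rfl, hy⟩
        refine ⟨x * y, (map_mul _ _ _).symm, ?_⟩
        have := (Y.r (min i K)).mul hx hy
        rwa [mul_one] at this
      inv_mem' := by
        rintro a ⟨x, rfl, hx⟩
        obtain ⟨z, hz, hz'⟩ := Y.div_mem (min_le_right i K) ((Y.r _).symm hx)
        refine ⟨z, ?_, hz'⟩
        rw [← hz, map_one, one_mul] } := rfl
  rw [h1, if_neg h0]
  constructor
  · rintro ⟨z, hz, hz'⟩
    rw [min_eq_left hiK] at hz'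
    exact (Y.r i).trans (Y.anti hiK (Y.pr_eq.1 hz)) hz'
  · intro h
    exact ⟨x, rfl, by rwa [min_eq_left hiK]⟩

lemma YFiltration.ns_big {K i : ℕ} (hi : 1 ≤ i) (hiK : K ≤ i) {q : Y.Q K}
    (h : q ∈ (Y.ns K).N i) : q = 1 := by
  have h0 : i ≠ 0 := by omega
  have h2 : q ∈ (if i = 0 then ⊤ else
    { carrier := {q | ∃ x : M, q = Y.pr K x ∧ Y.r (min i K) x 1}
      one_mem' := ⟨1, (map_one _).symm, (Y.r _).refl 1⟩
      mul_mem' := by
        rintro a b ⟨x, rfl, hx⟩ ⟨y, rfl, hy⟩
        refine ⟨x * y, (map_mul _ _ _).symm, ?_⟩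
        have := (Y.r (min i K)).mul hx hy
        rwa [mul_one] at this
      inv_mem' := by
        rintro a ⟨x, rfl, hx⟩
        obtain ⟨z, hz, hz'⟩ := Y.div_mem (min_le_right i K) ((Y.r _).symm hx)
        refine ⟨z, ?_, hz'⟩
        rw [← hz, map_one, one_mul] } : Subgroup (Y.Q K)) := h
  rw [if_neg h0] at h2
  obtain ⟨z, rfl, hz'⟩ := h2
  rw [min_eq_right hiK] at hz'
  rw [← map_one (Y.pr K)]
  exact Y.pr_eq.2 hz'

end Quot

end Pool.Agent.H639
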