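import Pool.Agent.H639.Base2

/-!
# Coarsening an N-series by its rational dimension subgroups
-/

set_option autoImplicit false

namespace Pool.Agent.H639

universe u v

variable {G : Type u} [Group G]

lemma NS.R_conj (S : NS G) {i : ℕ} {g : G} (t : G) (hg : g ∈ S.R i) : t * g * t⁻¹ ∈ S.R i := by
  refine ⟨S.conj t hg.1, ?_⟩
  obtain ⟨m, hm, h⟩ := hg.2
  refine ⟨m, hm, ?_⟩
  have h1 : m • (e (t * g * t⁻¹) - 1) = e t * (m • (e g - 1)) * e t⁻¹ := by
    rw [mul_smul_comm, smul_mul_assoc, mul_sub, sub_mul, mul_one, e_mul_e_inv, ← e_mul, ← e_mul]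
  rw [h1]
  exact h.conj (fun k hk => S.conj t hk)

instance NS.R_normal (S : NS G) (i : ℕ) : (S.R i).Normal := ⟨fun _ hn g => S.R_conj g hn⟩

instance NS.N_normal (S : NS G) (i : ℕ) : (S.N i).Normal := ⟨fun _ hn g => S.conj g hn⟩

lemma comm_mul_left {P : Subgroup G} [hP : P.Normal] {a b y : G}
    (ha : a * y * a⁻¹ * y⁻¹ ∈ P) (hb : b * y * b⁻¹ * y⁻¹ ∈ P) :
    a * b * y * (a * b)⁻¹ * y⁻¹ ∈ P := by
  have h1 : a * b * y * (a * b)⁻¹ * y⁻¹
      = (a * (b * y * b⁻¹ * y⁻¹) * a⁻¹) * (a * y * a⁻¹ * y⁻¹) := by group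
  rw [h1]
  exact P.mul_mem (hP.conj_mem _ hb a) ha

lemma comm_mul_right {P : Subgroup G} [hP : P.Normal] {a c d : G}
    (hc : a * c * a⁻¹ * c⁻¹ ∈ P) (hd : a * d * a⁻¹ * d⁻¹ ∈ P) :
    a * (c * d) * a⁻¹ * (c * d)⁻¹ ∈ P := by
  have h1 : a * (c * d) * a⁻¹ * (c * d)⁻¹
      = (a * c * a⁻¹ * c⁻¹) * (c * (a * d * a⁻¹ * d⁻¹) * c⁻¹) := by group
  rw [h1]
  exact P.mul_mem hc (hP.conj_mem _ hd c)

/-- the terms of the coarsened N-series -/
noncomputable def NS.cN (S : NS G) (i : ℕ) : Subgroup G :=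
  if i = 0 then ⊤ else S.N i ⊔ S.R (i + 1)

lemma NS.cN_zero (S : NS G) : S.cN 0 = ⊤ := by simp [NS.cN]

lemma NS.cN_pos (S : NS G) {i : ℕ} (hi : 1 ≤ i) : S.cN i = S.N i ⊔ S.R (i + 1) := by
  rw [NS.cN, if_neg (by omega)]

lemma NS.cN_one (S : NS G) : S.cN 1 = S.N 1 := by
  rw [S.cN_pos le_rfl]
  exact sup_eq_left.2 (S.R_le 2)

instance NS.cN_normal (S : NS G) (i : ℕ) : (S.cN i).Normal := by
  rcases Nat.eq_zero_or_pos i with rfl | h
  · rw [S.cN_zero]; infer_instance
  · rw [S.cN_pos h]; infer_instance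

lemma NS.mem_cN (S : NS G) {i : ℕ} (hi : 1 ≤ i) {g : G} :
    g ∈ S.cN i ↔ ∃ a ∈ S.N i, ∃ b ∈ S.R (i + 1), a * b = g := by
  rw [S.cN_pos hi, Subgroup.mem_sup_of_normal_left]

/-- the coarsened N-series -/
noncomputable def NS.coarse (S : NS G) : NS G where
  N := S.cN
  zero := S.cN_zero
  anti := by
    intro i j hij
    rcases Nat.eq_zero_or_pos i with rfl | h
    · rw [S.cN_zero]; exact le_top
    · rw [S.cN_pos h, S.cN_pos (le_trans h hij)]
      exact sup_le_sup (S.anti hij) (S.R_anti (by omega))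
  comm := by
    intro i j x y hx hy
    rcases Nat.eq_zero_or_pos i with rfl | hi
    · rw [zero_add]
      exact (S.cN j).mul_mem ((S.cN_normal j).conj_mem _ hy x) ((S.cN j).inv_mem hy)
    rcases Nat.eq_zero_or_pos j with rfl | hj
    · rw [add_zero, mul_assoc, mul_assoc, ← mul_assoc y]
      exact (S.cN i).mul_mem hx ((S.cN_normal i).conj_mem _ ((S.cN i).inv_mem hx) y)
    obtain ⟨a, ha, b, hb, rfl⟩ := (S.mem_cN hi).1 hx
    obtain ⟨c, hc, d, hd, rfl⟩ := (S.mem_cN hj).1 hy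
    have hle : S.R (i + j + 1) ≤ S.cN (i + j) := by
      rw [S.cN_pos (by omega)]; exact le_sup_right
    have hle' : S.N (i + j) ≤ S.cN (i + j) := by
      rw [S.cN_pos (by omega)]; exact le_sup_left
    refine comm_mul_left (comm_mul_right ?_ ?_) (comm_mul_right ?_ ?_)
    · exact hle' (S.comm ha hc)
    · refine hle ?_
      have := S.R_comm (S.N_le_R hi ha) hd
      rwa [← add_assoc] at this
    · refine hle ?_
      have := S.R_comm hb (S.N_le_R hj hc)
      rwa [add_right_comm] at this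
    · refine hle ?_
      exact S.R_anti (by omega) (S.R_comm hb hd)

lemma NS.coarse_N (S : NS G) (i : ℕ) : S.coarse.N i = S.cN i := rfl

lemma NS.coarse_Sat (S : NS G) {k : ℕ} {z : MonoidAlgebra ℤ G}
    (h : Del S.coarse (S.coarse.N 1) k z) : z ∈ S.Sat k := by
  induction h with
  | @unit h hh =>
    rw [S.coarse_N, S.cN_one] at hh
    exact NS.Sat_of_Del (Del.unit hh)
  | @gen i h hh hi =>
    rw [S.coarse_N, S.cN_one] at hh
    rcases Nat.eq_zero_or_pos i with rfl | h0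
    · exact NS.Sat_of_Del (Del.gen hh (by rw [S.zero]; trivial))
    · rw [S.coarse_N] at hi
      obtain ⟨a, ha, b, hb, rfl⟩ := (S.mem_cN h0).1 hi
      have h1 : e (a * b) - 1 = (e a - 1) * e b + (e b - 1) := by
        rw [e_mul, sub_mul, one_mul]; abel
      rw [h1]
      exact (S.Sat i).add_mem (NS.Sat_mul_right (S.N_le_R h0 ha).2 (e_mem_ZH hb.1))
        (NS.Sat_mono (by omega) hb.2)
  | mul _ _ h1 h2 => exact NS.Sat_mul h1 h2
  | @add i x y _ _ h1 h2 => exact (S.Sat i).add_mem h1 h2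
  | @neg i x _ h => exact (S.Sat i).neg_mem h
  | @zero i => exact (S.Sat i).zero_mem
  | mono _ hij h => exact NS.Sat_mono hij h

lemma NS.coarse_R (S : NS G) (k : ℕ) : S.coarse.R k ≤ S.R k := by
  rintro g ⟨hg, m, hm, h⟩
  rw [S.coarse_N, S.cN_one] at hg
  exact ⟨hg, NS.Sat_of_nsmul hm (S.coarse_Sat h)⟩

/-- **Second main theorem for N-series**: the `n`-th integral dimension subgroup is contained in
the product of `N n` and the rational dimension subgroup of level `n + 1`. -/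
theorem main_coarse (S : NS G) {n : ℕ} (hn : 1 ≤ n) {g : G} (hg : g ∈ S.N 1)
    (h : Del S (S.N 1) n (e g - 1)) : g ∈ S.N n ⊔ S.R (n + 1) := by
  rcases Nat.lt_or_ge 1 n with h1 | h1
  · rw [← S.cN_pos hn]
    have h2 : Del S.coarse (S.coarse.N 1) n (e g - 1) := by
      have h3 : ∀ i, S.N i ≤ S.coarse.N i := by
        intro i
        rw [S.coarse_N]
        rcases Nat.eq_zero_or_pos i with rfl | h0
        · rw [S.cN_zero]; exact le_top
        · rw [S.cN_pos h0]; exact le_sup_left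
      have h4 := h.mono_series h3
      rwa [← S.cN_one] at h4
    refine main_NS S.coarse (w := n - 1) (by omega) (by omega) ?_ ?_ ?_ h2
    · intro i hi _
      refine (S.coarse_R (i + 1)).trans ?_
      rw [S.coarse_N, S.cN_pos hi]
      exact le_sup_right
    · intro x hx y hy
      exact S.coarse.anti (by omega) (S.coarse.comm hx hy)
    · rw [S.coarse_N, S.cN_one]; exact hg
  · have h2 : n = 1 := by omega
    subst h2
    exact le_sup_left (a := S.N 1) hg

end Pool.Agent.H639
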