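import Pool.Agent.H639.Bridge
import Pool.Agent.H639.Coarse

/-!
# Finite type invariants and the N-series of the quotient group
-/

set_option autoImplicit false

namespace Pool.Agent.H639

universe u v

section MapE

variable {M : Type u} {G : Type v} [Monoid M] [Group G]

/-- the map induced on monoid rings -/
noncomputable def mapE (f : M →* G) : MonoidAlgebra ℤ M →+ MonoidAlgebra ℤ G :=
  lin (fun m => e (f m))

@[simp] lemma mapE_e (f : M →* G) (m : M) : mapE f (e m) = e (f m) := by simp [mapE]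

@[simp] lemma mapE_one (f : M →* G) : mapE f 1 = 1 := by
  rw [← e_one, mapE_e, map_one, e_one]

lemma mapE_mul (f : M →* G) (x y : MonoidAlgebra ℤ M) : mapE f (x * y) = mapE f x * mapE f y := by
  refine induction_e (P := fun x => mapE f (x * y) = mapE f x * mapE f y) x ?_ ?_ ?_ ?_
  · simp
  · intro a b ha hb; rw [add_mul, map_add, map_add, ha, hb, add_mul]
  · intro a ha; rw [neg_mul, map_neg, map_neg, ha, neg_mul]
  · intro g
    refine induction_e (P := fun y => mapE f (e g * y) = mapE f (e g) * mapE f y) y ?_ ?_ ?_ ?_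
    · simp
    · intro a b ha hb; rw [mul_add, map_add, map_add, ha, hb, mul_add]
    · intro a ha; rw [mul_neg, map_neg, map_neg, ha, mul_neg]
    · intro k; rw [← e_mul, mapE_e, mapE_e, mapE_e, map_mul, e_mul]

end MapE

variable {M : Type u} [Monoid M] (Y : YFiltration M)

/-- the image of the finite type filtration has the corresponding weight -/
lemma YFiltration.Del_of_fil {K n : ℕ} {z : MonoidAlgebra ℤ M} (hz : z ∈ Y.fil n) :
    Del (Y.ns K) ⊤ n (mapE (Y.pr K) z) := by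
  refine Y.fil_induction (P := fun z => Del (Y.ns K) ⊤ n (mapE (Y.pr K) z)) ?_ ?_ ?_ ?_ hz
  · rw [map_zero]; exact Del.zero
  · intro x y hx hy; rw [map_add]; exact hx.add hy
  · intro x hx; rw [map_neg]; exact hx.neg
  · intro l hl hn
    refine Del.mono ?_ hn
    clear hn
    induction l with
    | nil =>
      simp only [List.map_nil, List.prod_nil, List.sum_nil, mapE_one]
      rw [← e_one]; exact Del.unit trivial
    | cons t l ih =>
      simp only [List.map_cons, List.prod_cons, List.sum_cons, mapE_mul]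
      refine Del.mul ?_ (ih (fun s hs => hl s (List.mem_cons_of_mem _ hs)))
      obtain ⟨h1, h2⟩ := hl t List.mem_cons_self
      rw [map_sub, mapE_e, mapE_e]
      rcases le_total t.1 K with h3 | h3
      · obtain ⟨z, hz, hz'⟩ := Y.div_mem h3 h2
        have h4 : Y.pr K z ∈ (Y.ns K).N t.1 := (Y.mem_ns h1 h3).2 hz'
        have h5 : e (Y.pr K t.2.1) - e (Y.pr K t.2.2)
            = (e (Y.pr K z) - 1) * e (Y.pr K t.2.2) := by
          rw [sub_mul, one_mul, ← e_mul, ← hz, inv_mul_cancel_right]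
        rw [h5]
        exact (Del.gen (Subgroup.mem_top _) h4).mul_right (e_mem_ZH (Subgroup.mem_top _))
      · have h4 : Y.pr K t.2.1 = Y.pr K t.2.2 := Y.pr_eq.2 (Y.anti h3 h2)
        rw [h4, sub_self]; exact Del.zero

/-- elements of a given weight lift to the finite type filtration -/
lemma YFiltration.lift_Del {K n : ℕ} {z : MonoidAlgebra ℤ (Y.Q K)} (hz : Del (Y.ns K) ⊤ n z) :
    ∃ z' : MonoidAlgebra ℤ M, mapE (Y.pr K) z' = z ∧ (1 ≤ n → z' ∈ Y.fil n) := by
  induction hz with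
  | @unit h _ =>
    obtain ⟨x, rfl⟩ := Y.pr_surj K h
    exact ⟨e x, mapE_e _ _, fun h => by omega⟩
  | @gen i h _ hi =>
    obtain ⟨x, rfl⟩ := Y.pr_surj K h
    rcases le_total i K with h3 | h3
    · refine ⟨e x - e 1, by rw [map_sub, mapE_e, mapE_e, map_one, e_one], fun h1 => ?_⟩
      exact Y.sub_mem_fil h1 ((Y.mem_ns h1 h3).1 hi)
    · rcases Nat.eq_zero_or_pos i with rfl | h0
      · exact ⟨e x - e 1, by rw [map_sub, mapE_e, mapE_e, map_one, e_one], fun h => by omega⟩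
      · refine ⟨0, ?_, fun _ => (Y.fil i).zero_mem⟩
        rw [Y.ns_big h0 h3 hi, e_one, sub_self, map_zero]
  | @mul i j x y _ _ h1 h2 =>
    obtain ⟨x', hx, hx'⟩ := h1
    obtain ⟨y', hy, hy'⟩ := h2
    refine ⟨x' * y', by rw [mapE_mul, hx, hy], fun h => ?_⟩
    rcases Nat.eq_zero_or_pos i with rfl | hi
    · rw [zero_add] at h ⊢
      exact Y.mul_fil h x' (hy' h)
    rcases Nat.eq_zero_or_pos j with rfl | hj
    · rw [add_zero] at h ⊢
      exact Y.fil_mul' h y' (hx' h)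
    exact Y.fil_mul (hx' hi) (hy' hj)
  | @add i x y _ _ h1 h2 =>
    obtain ⟨x', hx, hx'⟩ := h1
    obtain ⟨y', hy, hy'⟩ := h2
    exact ⟨x' + y', by rw [map_add, hx, hy], fun h => (Y.fil i).add_mem (hx' h) (hy' h)⟩
  | @neg i x _ h1 =>
    obtain ⟨x', hx, hx'⟩ := h1
    exact ⟨-x', by rw [map_neg, hx], fun h => (Y.fil i).neg_mem (hx' h)⟩
  | @zero i => exact ⟨0, map_zero _, fun _ => (Y.fil i).zero_mem⟩
  | mono _ hij h1 =>
    obtain ⟨x', hx, hx'⟩ := h1
    exact ⟨x', hx, fun h => Y.fil_mono hij (hx' (h.trans hij))⟩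

/-- finite type invariants factor through the quotient group -/
lemma YFiltration.IsFT.factor {Y : YFiltration M} {K n : ℕ} (hn : 1 ≤ n) (hK : n ≤ K)
    {A : Type v} [AddCommGroup A] {v : M → A} (hv : Y.IsFT n v) :
    ∃ f : MonoidAlgebra ℤ (Y.Q K) →+ A, ∀ z, lin v z = f (mapE (Y.pr K) z) := by
  classical
  choose rep hrep using Y.pr_surj K
  refine ⟨lin (fun q => v (rep q)), fun z => ?_⟩
  have h1 : lin v = (lin (fun q => v (rep q))).comp (mapE (Y.pr K)) := by
    refine hom_ext_e (fun m => ?_)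
    rw [AddMonoidHom.comp_apply, mapE_e, lin_e, lin_e]
    have h2 : Y.r n m (rep (Y.pr K m)) := Y.anti hK (Y.pr_eq.1 (hrep _).symm)
    have h3 := (Y.isFT_iff n v).1 hv _ (Y.sub_mem_fil hn h2)
    rw [map_sub, lin_e, lin_e, sub_eq_zero] at h3
    exact h3
  rw [h1]; rfl

/-- easy direction: finite type invariants do not see the corresponding congruence -/
lemma YFiltration.IsFT.eq_of_r {Y : YFiltration M} {n : ℕ} (hn : 1 ≤ n)
    {A : Type v} [AddCommGroup A] {v : M → A} (hv : Y.IsFT n v) {x y : M} (h : Y.r n x y) :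
    v x = v y := by
  have h3 := (Y.isFT_iff n v).1 hv _ (Y.sub_mem_fil hn h)
  rw [map_sub, lin_e, lin_e, sub_eq_zero] at h3
  exact h3

/-- equality under rational invariants follows from a torsion relation of the right weight -/
lemma YFiltration.rat_eq {K n m : ℕ} (hn : 1 ≤ n) (hK : n ≤ K) (hm : 1 ≤ m) {x y : M}
    (h : Del (Y.ns K) ⊤ n (m • (e (Y.pr K x) - e (Y.pr K y)))) {v : M → ℚ}
    (hv : Y.IsFT n v) : v x = v y := by
  obtain ⟨z', hz', hz''⟩ := Y.lift_Del h
  obtain ⟨f, hf⟩ := hv.factor hn hK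
  have h1 := (Y.isFT_iff n v).1 hv z' (hz'' hn)
  rw [hf, hz'] at h1
  have h2 : lin v (m • (e x - e y)) = 0 := by
    rw [hf, map_nsmul, map_sub, mapE_e, mapE_e]
    exact h1
  rw [map_nsmul, map_sub, lin_e, lin_e, nsmul_eq_mul, mul_eq_zero, sub_eq_zero] at h2
  rcases h2 with h2 | h2
  · have : m = 0 := by exact_mod_cast h2
    omega
  · exact h2

/-- the group element attached to a pair not separated by invariants -/
lemma YFiltration.Del_of_agree {K n : ℕ} (hn : 1 ≤ n) {x y : M}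
    (h : ∀ (A : Type u) [AddCommGroup A] (v : M → A), Y.IsFT n v → v x = v y) :
    Y.pr K x * (Y.pr K y)⁻¹ ∈ (Y.ns K).N 1 ∧
      Del (Y.ns K) ((Y.ns K).N 1) n (e (Y.pr K x * (Y.pr K y)⁻¹) - 1) := by
  have h1 := Y.Del_of_fil (K := K) (Y.detect n x y h)
  rw [map_sub, mapE_e, mapE_e] at h1
  have h2 : Del (Y.ns K) ⊤ n (e (Y.pr K x * (Y.pr K y)⁻¹) - 1) := by
    have h3 : e (Y.pr K x * (Y.pr K y)⁻¹) - 1
        = (e (Y.pr K x) - e (Y.pr K y)) * e (Y.pr K y)⁻¹ := by
      rw [sub_mul, e_mul_e_inv, e_mul]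
    rw [h3]
    exact h1.mul_right (e_mem_ZH trivial)
  have h4 : Y.pr K x * (Y.pr K y)⁻¹ ∈ (Y.ns K).N 1 :=
    mem_N1_of_Del (m := 1) (Y.ns K) hn le_rfl (by rwa [one_smul])
  exact ⟨h4, Del_N1 _ h2 ((ZH _).sub_mem (e_mem_ZH h4) (one_mem_ZH _))⟩

/-- translation of the hypothesis on rational invariants -/
lemma YFiltration.R_le_of {K i : ℕ} (hi : 1 ≤ i) (hK : i + 1 ≤ K)
    (hQ : ∀ x y : M, (∀ v : M → ℚ, Y.IsFT (i + 1) v → v x = v y) → Y.r i x y) :
    (Y.ns K).R (i + 1) ≤ (Y.ns K).N i := by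
  rintro g ⟨_, m, hm, h⟩
  obtain ⟨x, rfl⟩ := Y.pr_surj K g
  refine (Y.mem_ns hi (by omega)).2 (hQ x 1 (fun v hv => ?_))
  refine Y.rat_eq (by omega) hK hm ?_ hv
  rw [map_one, e_one]
  exact h.mono_sub le_top

/-- **Bootstrapping**, in terms of a monoid with a Y-filtration. -/
theorem YFiltration.main {w n : ℕ} (hw : 1 ≤ w) (hwn : w < n)
    (hQ : ∀ i, 1 ≤ i → i ≤ w → ∀ x y : M,
      (∀ v : M → ℚ, Y.IsFT (i + 1) v → v x = v y) → Y.r i x y)
    (hc : ∀ x y : M, Y.r w x 1 → Y.r (w + 1) y 1 → Y.r n (x * y) (y * x)) {x y : M}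
    (h : ∀ (A : Type u) [AddCommGroup A] (v : M → A), Y.IsFT n v → v x = v y) : Y.r n x y := by
  obtain ⟨h1, h2⟩ := Y.Del_of_agree (K := n) (by omega) h
  have h3 := main_NS (Y.ns n) hw hwn ?_ ?_ h1 h2
  · have h4 := Y.ns_big (by omega) le_rfl h3
    rw [mul_inv_eq_one] at h4
    exact Y.pr_eq.1 h4
  · intro i hi hiw
    exact Y.R_le_of hi (by omega) (hQ i hi hiw)
  · intro a ha b hb
    obtain ⟨x, rfl⟩ := Y.pr_surj n a
    obtain ⟨y, rfl⟩ := Y.pr_surj n b
    have h5 := hc x y ((Y.mem_ns hw (by omega)).1 ha) ((Y.mem_ns (by omega) (by omega)).1 hb)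
    have h6 : Y.pr n x * Y.pr n y = Y.pr n y * Y.pr n x := by
      rw [← map_mul, ← map_mul]; exact Y.pr_eq.2 h5
    rw [h6, mul_inv_cancel_right, mul_inv_cancel]
    exact ((Y.ns n).N n).one_mem

/-- **Next-degree rational indistinguishability**, in terms of a monoid with a Y-filtration. -/
theorem YFiltration.main_next {n : ℕ} (hn : 1 ≤ n) {x y : M}
    (h : ∀ (A : Type u) [AddCommGroup A] (v : M → A), Y.IsFT n v → v x = v y) :
    ∃ y' : M, Y.r n y y' ∧ ∀ v : M → ℚ, Y.IsFT (n + 1) v → v x = v y' := by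
  obtain ⟨h1, h2⟩ := Y.Del_of_agree (K := n + 1) hn h
  have h3 := main_coarse (Y.ns (n + 1)) hn h1 h2
  rw [sup_comm, Subgroup.mem_sup_of_normal_left] at h3
  obtain ⟨b, ⟨_, m, hm, hb⟩, a, ha, hab⟩ := h3
  obtain ⟨z, rfl⟩ := Y.pr_surj (n + 1) a
  have h4 : Y.r n z 1 := (Y.mem_ns hn (by omega)).1 ha
  refine ⟨z * y, ?_, fun v hv => ?_⟩
  · have h5 := (Y.r n).mul h4 ((Y.r n).refl y)
    rw [one_mul] at h5
    exact (Y.r n).symm h5
  · have h6 : Y.pr (n + 1) x = b * Y.pr (n + 1) (z * y) := by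
      rw [map_mul, ← mul_assoc, hab, inv_mul_cancel_right]
    refine Y.rat_eq (by omega) le_rfl hm ?_ hv
    have h7 : m • (e (Y.pr (n + 1) x) - e (Y.pr (n + 1) (z * y)))
        = (m • (e b - 1)) * e (Y.pr (n + 1) (z * y)) := by
      rw [h6, smul_mul_assoc, sub_mul, one_mul, e_mul]
    rw [h7]
    exact (hb.mono_sub le_top).mul_right (e_mem_ZH trivial)

end Pool.Agent.H639
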