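import Pool.Agent.H639.Rat

/-!
# Adapted coordinates on the graded pieces
-/

set_option autoImplicit false

namespace Pool.Agent.H639

universe u v

open Module

/-- stacked bases over the integers -/
lemma adapted (Q : Type v) [AddCommGroup Q] [Module.Finite ℤ Q] [Module.IsTorsionFree ℤ Q]
    (P : Submodule ℤ Q) :
    ∃ (r : ℕ) (b : Basis (Fin r) ℤ Q), ∀ p ∈ P, ∀ j, (b.repr p j) • b j ∈ P := by
  obtain ⟨n, snf⟩ := P.smithNormalForm (Module.finBasis ℤ Q)
  refine ⟨_, snf.bM, ?_⟩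
  intro p hp j
  by_cases hj : j ∈ Set.range snf.f
  · obtain ⟨k, rfl⟩ := hj
    have h1 := snf.repr_apply_embedding_eq_repr_smul ⟨p, hp⟩ (i := k)
    have h2 : snf.bM.repr p (snf.f k) = (snf.bN.repr ⟨p, hp⟩ k) * snf.a k := by
      rw [show snf.bM.repr p (snf.f k) = snf.bM.repr ((⟨p, hp⟩ : P) : Q) (snf.f k) from rfl, h1,
        map_smul, Finsupp.smul_apply, smul_eq_mul, mul_comm]
    rw [h2, mul_smul, ← snf.snf k]
    exact P.smul_mem _ (snf.bN k).2
  · have h1 := snf.repr_eq_zero_of_notMem_range ⟨p, hp⟩ hj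
    have h2 : snf.bM.repr p j = 0 := h1
    rw [h2, zero_smul]; exact P.zero_mem

variable {G : Type u} [Group G]

/-- the torsion free quotient of the group ring -/
abbrev NS.A (S : NS G) (i : ℕ) : Type u := MonoidAlgebra ℤ G ⧸ S.Sat (i + 1)

lemma NS.A_torsionFree (S : NS G) (i : ℕ) : Module.IsTorsionFree ℤ (S.A i) := by
  refine Module.IsTorsionFree.of_smul_eq_zero ?_
  intro r m h
  by_cases hr : r = 0
  · exact Or.inl hr
  right
  obtain ⟨x, rfl⟩ := QuotientAddGroup.mk_surjective m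
  have h1 : (QuotientAddGroup.mk (r • x) : S.A i) = 0 := h
  rw [QuotientAddGroup.eq_zero_iff] at h1 ⊢
  obtain ⟨n, hn | hn⟩ := r.eq_nat_or_neg
  · subst hn
    rw [natCast_zsmul] at h1
    exact NS.Sat_of_nsmul (by omega) h1
  · subst hn
    rw [neg_smul, natCast_zsmul] at h1
    have h2 := (S.Sat (i + 1)).neg_mem h1
    rw [neg_neg] at h2
    exact NS.Sat_of_nsmul (by omega) h2

/-- class of `g - 1` -/
noncomputable def NS.tau (S : NS G) (i : ℕ) (g : G) : S.A i := QuotientAddGroup.mk (e g - 1)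

lemma NS.tau_mul (S : NS G) {i : ℕ} (hi : 1 ≤ i) {x y : G} (hx : x ∈ S.R i) (hy : y ∈ S.R i) :
    S.tau i (x * y) = S.tau i x + S.tau i y := by
  unfold NS.tau
  rw [← QuotientAddGroup.mk_add, QuotientAddGroup.eq]
  have h1 : -(e (x * y) - 1) + (e x - 1 + (e y - 1)) = -((e x - 1) * (e y - 1)) := by
    rw [e_mul, sub_mul, mul_sub]; noncomm_ring
  rw [h1]
  exact (S.Sat _).neg_mem (NS.Sat_mono (by omega) (NS.Sat_mul hx.2 hy.2))

lemma NS.tau_eq_zero (S : NS G) {i : ℕ} {x : G} (hx : x ∈ S.R i) :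
    S.tau i x = 0 ↔ x ∈ S.R (i + 1) := by
  unfold NS.tau
  rw [QuotientAddGroup.eq_zero_iff]
  exact ⟨fun h => ⟨hx.1, h⟩, fun h => h.2⟩

theorem NS.coords (S : NS G) (X : Subgroup G) {i : ℕ} (hi : 1 ≤ i) (hRN : S.R (i + 1) ≤ S.N i)
    (T : Set G) (hT : T.Finite) (hTX : T ⊆ X ⊓ S.R i)
    (hgen : X ⊓ S.R i ≤ Subgroup.closure T ⊔ S.R (i + 1)) :
    ∃ (r : ℕ) (a : Fin r → G → ℤ) (E : Fin r → G),
      (∀ j, E j ∈ X ⊓ S.R i) ∧
      (∀ j, ∀ x ∈ X ⊓ S.R i, ∀ y ∈ X ⊓ S.R i, a j (x * y) = a j x + a j y) ∧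
      (∀ j k, a j (E k) = if j = k then 1 else 0) ∧
      (∀ x ∈ X ⊓ S.R i, (∀ j, a j x = 0) ↔ x ∈ S.R (i + 1)) ∧
      (∀ x ∈ X ⊓ S.R i, x ∈ S.N i → ∀ j, (E j) ^ (a j x) ∈ S.N i) := by
  classical
  set D : Subgroup G := X ⊓ S.R i with hD
  have := S.A_torsionFree i
  -- the homomorphism to the torsion free quotient
  let φ : Additive D →+ S.A i :=
    { toFun := fun x => S.tau i ((x.toMul : D) : G)
      map_zero' := by
        change S.tau i 1 = 0
        rw [S.tau_eq_zero (S.R i).one_mem]; exact (S.R (i + 1)).one_mem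
      map_add' := by
        intro x y
        change S.tau i (((x.toMul : D) : G) * ((y.toMul : D) : G)) = _
        exact S.tau_mul hi x.toMul.2.2 y.toMul.2.2 }
  have hφl : ∀ x : D, φ (Additive.ofMul x) = S.tau i x := fun x => rfl
  let Q : Submodule ℤ (S.A i) := AddSubgroup.toIntSubmodule φ.range
  have hQfg : Q.FG := by
    rw [Submodule.fg_def]
    refine ⟨S.tau i '' T, hT.image _, ?_⟩
    apply le_antisymm
    · rw [Submodule.span_le]
      rintro _ ⟨t, ht, rfl⟩
      exact ⟨Additive.ofMul ⟨t, hTX ht⟩, rfl⟩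
    · rintro _ ⟨x, rfl⟩
      obtain ⟨x, rfl⟩ := Additive.ofMul.surjective x
      rw [hφl]
      have hR : (S.R (i + 1)).Normal ∨ True := Or.inr trivial
      -- closure of T normalises R (i+1)
      have hxm := hgen x.2
      have hcl : ∀ z ∈ Subgroup.closure T ⊔ S.R (i + 1),
          z ∈ S.R i ∧ S.tau i z ∈ Submodule.span ℤ (S.tau i '' T) := by
        intro z hz
        rw [← Subgroup.closure_eq (S.R (i + 1)), ← Subgroup.closure_union] at hz
        induction hz using Subgroup.closure_induction with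
        | mem z hz =>
          rcases hz with hz | hz
          · exact ⟨(hTX hz).2, Submodule.subset_span ⟨z, hz, rfl⟩⟩
          · have h1 : z ∈ S.R i := S.R_anti (Nat.le_succ i) hz
            refine ⟨h1, ?_⟩
            rw [(S.tau_eq_zero h1).2 hz]
            exact Submodule.zero_mem _
        | one =>
          refine ⟨(S.R i).one_mem, ?_⟩
          rw [(S.tau_eq_zero (S.R i).one_mem).2 (S.R (i + 1)).one_mem]
          exact Submodule.zero_mem _
        | mul z w _ _ hz hw =>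
          refine ⟨(S.R i).mul_mem hz.1 hw.1, ?_⟩
          rw [S.tau_mul hi hz.1 hw.1]
          exact Submodule.add_mem _ hz.2 hw.2
        | inv z _ hz =>
          refine ⟨(S.R i).inv_mem hz.1, ?_⟩
          have h1 := S.tau_mul hi hz.1 ((S.R i).inv_mem hz.1)
          rw [mul_inv_cancel, (S.tau_eq_zero (S.R i).one_mem).2 (S.R (i + 1)).one_mem] at h1
          have h2 : S.tau i z⁻¹ = - S.tau i z := (neg_eq_of_add_eq_zero_right h1.symm).symm
          rw [h2]
          exact Submodule.neg_mem _ hz.2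
      exact (hcl _ hxm).2
  have hQfin : Module.Finite ℤ Q := Module.Finite.iff_fg.2 hQfg
  have hQtf : Module.IsTorsionFree ℤ Q :=
    Function.Injective.moduleIsTorsionFree (R := ℤ) (fun x : Q => (x : S.A i))
      Subtype.val_injective (fun r m => rfl)
  -- the submodule of the image of N i
  let P0 : AddSubgroup (Additive D) := Subgroup.toAddSubgroup ((S.N i).subgroupOf D)
  let P1 : Submodule ℤ (S.A i) := AddSubgroup.toIntSubmodule (P0.map φ)
  let P : Submodule ℤ Q := P1.comap Q.subtype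
  obtain ⟨r, b, hb⟩ := adapted Q P
  have hE : ∀ j, ∃ x : D, S.tau i (x : G) = ((b j : Q) : S.A i) := by
    intro j
    obtain ⟨x, hx⟩ := (b j).2
    exact ⟨x.toMul, hx⟩
  choose E hE using hE
  have hmemQ : ∀ x : D, S.tau i (x : G) ∈ Q := fun x => ⟨Additive.ofMul x, rfl⟩
  let a : Fin r → G → ℤ := fun j x => if hx : x ∈ D then b.repr ⟨S.tau i x, hmemQ ⟨x, hx⟩⟩ j else 0
  have ha : ∀ j, ∀ x (hx : x ∈ D), a j x = b.repr ⟨S.tau i x, hmemQ ⟨x, hx⟩⟩ j := by
    intro j x hx
    simp only [a, dif_pos hx]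
  refine ⟨r, a, fun j => (E j : G), fun j => (E j).2, ?_, ?_, ?_, ?_⟩
  · intro j x hx y hy
    rw [ha j _ (D.mul_mem hx hy), ha j x hx, ha j y hy, ← Finsupp.add_apply, ← map_add]
    congr 2
    apply Subtype.ext
    exact S.tau_mul hi hx.2 hy.2
  · intro j k
    rw [ha j _ (E k).2]
    have h1 : (⟨S.tau i (E k : G), hmemQ ⟨(E k : G), (E k).2⟩⟩ : Q) = b k := Subtype.ext (hE k)
    rw [h1, Basis.repr_self, Finsupp.single_apply]
    simp only [eq_comm]
  · intro x hx
    rw [← S.tau_eq_zero hx.2]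
    constructor
    · intro h
      have h1 : (⟨S.tau i x, hmemQ ⟨x, hx⟩⟩ : Q) = 0 := by
        apply b.repr.injective
        ext j
        rw [← ha j x hx, h j, b.repr.map_zero]; rfl
      exact congrArg Subtype.val h1
    · intro h j
      rw [ha j x hx]
      have h1 : (⟨S.tau i x, hmemQ ⟨x, hx⟩⟩ : Q) = 0 := Subtype.ext h
      rw [h1, b.repr.map_zero]; rfl
  · intro x hx hxN j
    have h1 : (⟨S.tau i x, hmemQ ⟨x, hx⟩⟩ : Q) ∈ P := by
      change S.tau i x ∈ P0.map φ
      exact ⟨Additive.ofMul ⟨x, hx⟩, hxN, rfl⟩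
    have h2 := hb _ h1 j
    rw [← ha j x hx] at h2
    have h3 : ((a j x • b j : Q) : S.A i) ∈ P0.map φ := h2
    obtain ⟨y, hyN, hy⟩ := h3
    obtain ⟨y, rfl⟩ := Additive.ofMul.surjective y
    have hyN' : (y : G) ∈ S.N i := hyN
    have h4 : φ (Additive.ofMul ((E j) ^ (a j x))) = a j x • ((b j : Q) : S.A i) := by
      have : Additive.ofMul ((E j) ^ (a j x)) = a j x • Additive.ofMul (E j) := rfl
      rw [this, map_zsmul, hφl, hE j]
    have h5 : φ (Additive.ofMul (y⁻¹ * (E j) ^ (a j x))) = 0 := by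
      have : Additive.ofMul (y⁻¹ * (E j) ^ (a j x))
          = - Additive.ofMul y + Additive.ofMul ((E j) ^ (a j x)) := rfl
      rw [this, map_add, map_neg, h4, hy]
      simp
    have h6 : S.tau i ((y⁻¹ * (E j) ^ (a j x) : D) : G) = 0 := h5
    rw [S.tau_eq_zero (y⁻¹ * (E j) ^ (a j x) : D).2.2] at h6
    have h7 := hRN h6
    have h8 : ((E j : G)) ^ (a j x) = (y : G) * ((y⁻¹ * (E j) ^ (a j x) : D) : G) := by
      push_cast; group
    rw [h8]
    exact (S.N i).mul_mem hyN' h7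

end Pool.Agent.H639
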