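import Pool.Agent.H639.Level
import Pool.Agent.Helper111.EN.NS

/-!
# Finite generation of the graded pieces
-/

set_option autoImplicit false

namespace Pool.Agent.H639

universe u v

open Pool.Agent.Helper111.EN.NSc (NS_top_of_nilpotent_fg)

variable {G : Type u} [Group G]

lemma fgdata (S : NS G) (T0 : Set G) (hT0 : T0.Finite) (hT0N : T0 ⊆ S.N 1) (i : ℕ) :
    ∃ T : Set G, T.Finite ∧ T ⊆ Subgroup.closure T0 ⊓ S.R i ∧
      Subgroup.closure T0 ⊓ S.R i ≤ Subgroup.closure T ⊔ S.R (i + 1) := by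
  classical
  set X : Subgroup G := Subgroup.closure T0 with hX
  have hXN : X ≤ S.N 1 := (Subgroup.closure_le _).2 hT0N
  have hlcs : ∀ k, (⊤ : Subgroup X).lowerCentralSeries k ≤ (S.R (k + 1)).subgroupOf X := by
    intro k
    induction k with
    | zero =>
      intro x _
      rw [Subgroup.mem_subgroupOf, zero_add, S.R_one]
      exact hXN x.2
    | succ k ih =>
      rw [Subgroup.lowerCentralSeries_succ, Subgroup.commutator_le]
      intro x hx y _
      have h1 := ih hx
      rw [Subgroup.mem_subgroupOf] at h1 ⊢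
      have h2 : (y : G) ∈ S.R 1 := by rw [S.R_one]; exact hXN y.2
      have h3 := S.R_comm h1 h2
      rw [commutatorElement_def]
      exact h3
  have hnorm : ((S.R (i + 1)).subgroupOf X).Normal := by
    constructor
    intro n hn g
    rw [Subgroup.mem_subgroupOf] at hn ⊢
    have h2 : (g : G) ∈ S.R 1 := by rw [S.R_one]; exact hXN g.2
    have h3 := S.R_comm h2 hn
    have h4 : ((g * n * g⁻¹ : X) : G) = ((g : G) * n * (g : G)⁻¹ * (n : G)⁻¹) * n := by
      push_cast; group
    rw [h4]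
    exact (S.R (i + 1)).mul_mem (S.R_anti (by omega) h3) hn
  have hXfg : Group.FG X := by
    rw [Group.fg_iff_subgroup_fg]
    exact ⟨hT0.toFinset, by rw [Set.Finite.coe_toFinset]⟩
  set K : Subgroup X := (S.R (i + 1)).subgroupOf X with hK
  have hQ : Pool.Agent.Helper111.EN.NSc.NS (⊤ : Subgroup (X ⧸ K)) := by
    refine NS_top_of_nilpotent_fg i (X ⧸ K) inferInstance ?_
    have h1 := Subgroup.map_lowerCentralSeries (⊤ : Subgroup X) (QuotientGroup.mk' K) (i + 1)
    rw [Subgroup.map_top_of_surjective _ (QuotientGroup.mk'_surjective K)] at h1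
    rw [← h1, eq_bot_iff]
    rintro _ ⟨x, hx, rfl⟩
    rw [Subgroup.mem_bot, QuotientGroup.mk'_apply, QuotientGroup.eq_one_iff]
    have h2 := hlcs (i + 1) hx
    rw [Subgroup.mem_subgroupOf] at h2
    rw [hK, Subgroup.mem_subgroupOf]
    exact S.R_anti (by omega) h2
  obtain ⟨S', hS'⟩ := hQ (((S.R i).subgroupOf X).map (QuotientGroup.mk' K)) le_top
  have hlift : ∀ s ∈ S', ∃ k : X, (k : G) ∈ S.R i ∧ QuotientGroup.mk' K k = s := by
    intro s hs
    have h1 : s ∈ ((S.R i).subgroupOf X).map (QuotientGroup.mk' K) := by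
      rw [← hS']; exact Subgroup.subset_closure hs
    obtain ⟨k, hk, hk'⟩ := h1
    exact ⟨k, hk, hk'⟩
  choose! k hk hfk using hlift
  refine ⟨(fun s => ((k s : X) : G)) '' (S' : Set (X ⧸ K)), S'.finite_toSet.image _, ?_, ?_⟩
  · rintro _ ⟨s, hs, rfl⟩
    exact ⟨(k s).2, hk s hs⟩
  · intro x hx
    have h1 : QuotientGroup.mk' K ⟨x, hx.1⟩ ∈
        (Subgroup.closure (k '' (S' : Set _))).map (QuotientGroup.mk' K) := by
      rw [MonoidHom.map_closure]
      have h4 : QuotientGroup.mk' K ⟨x, hx.1⟩ ∈ Subgroup.closure (S' : Set (X ⧸ K)) := by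
        rw [hS']
        exact ⟨⟨x, hx.1⟩, hx.2, rfl⟩
      refine Subgroup.closure_mono ?_ h4
      intro s hs
      exact ⟨k s, ⟨s, hs, rfl⟩, hfk s hs⟩
    obtain ⟨d, hd, hfd⟩ := h1
    have h5 : d⁻¹ * ⟨x, hx.1⟩ ∈ K := by
      rw [← QuotientGroup.eq]; exact hfd
    have h6 : (d : G) ∈ Subgroup.closure ((fun s => ((k s : X) : G)) '' (S' : Set (X ⧸ K))) := by
      have h7 : (Subgroup.closure (k '' (S' : Set (X ⧸ K)))).map X.subtype
          = Subgroup.closure ((fun s => ((k s : X) : G)) '' (S' : Set (X ⧸ K))) := by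
        rw [MonoidHom.map_closure, ← Set.image_comp]; rfl
      rw [← h7]
      exact ⟨d, hd, rfl⟩
    have h8 : (d : G)⁻¹ * x ∈ S.R (i + 1) := by
      rw [hK, Subgroup.mem_subgroupOf] at h5
      exact h5
    have h9 : x = (d : G) * ((d : G)⁻¹ * x) := by group
    rw [h9]
    exact Subgroup.mul_mem_sup h6 h8

/-- Passing down to the rational dimension subgroup `R (w+1)`. -/
theorem chain (S : NS G) (T0 : Set G) (hT0 : T0.Finite) (hT0N : T0 ⊆ S.N 1) (w : ℕ)
    (hR : ∀ i, 1 ≤ i → i ≤ w → S.R (i + 1) ≤ S.N i) {n : ℕ} {x : MonoidAlgebra ℤ G}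
    (hx : Del S (Subgroup.closure T0) n x)
    (hxm : x ∈ ZH (Subgroup.closure T0 ⊓ S.R (w + 1))) :
    Del S (Subgroup.closure T0 ⊓ S.R (w + 1)) n x := by
  have hXN : Subgroup.closure T0 ≤ S.N 1 := (Subgroup.closure_le _).2 hT0N
  have key : ∀ i, i ≤ w → Del S (Subgroup.closure T0 ⊓ S.R (i + 1)) n x := by
    intro i
    induction i with
    | zero =>
      intro _
      rw [zero_add, S.R_one, inf_eq_left.2 hXN]; exact hx
    | succ i ih =>
      intro hi
      obtain ⟨T, hT, hTX, hgen⟩ := fgdata S T0 hT0 hT0N (i + 1)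
      refine level S (Subgroup.closure T0) (Nat.succ_le_succ (Nat.zero_le i))
        (hR (i + 1) (by omega) hi) ?_ T hT hTX hgen (ih (by omega)) ?_
      · rcases Nat.eq_zero_or_pos i with rfl | h0
        · rw [show 0 + 1 - 1 = 0 from rfl, S.zero]; exact le_top
        · exact hR i h0 (by omega)
      · refine ZH_mono (inf_le_inf_left _ ?_) hxm
        exact S.R_anti (by omega)
  exact key w le_rfl

end Pool.Agent.H639
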