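import Pool.Agent.H639.Basic

/-!
# The splitting lemma

If `C = H ⋊ ⟨E⟩` with `⟨E⟩` infinite cyclic and the N-series is compatible with the
decomposition, then an element of the group ring of `H` which has weight at least `n` with
respect to `C` has weight at least `n` with respect to `H`.
-/

set_option autoImplicit false

namespace Pool.Agent.H639

universe u v

variable {G : Type u} [Group G]

section Rep

open Classical in
/-- a representative of a coset of `⟨E⟩`, in `H` if possible -/
noncomputable def rep (H : Subgroup G) (E : G) (q : G ⧸ Subgroup.zpowers E) : G :=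
  if h : ∃ x ∈ H, (QuotientGroup.mk x : G ⧸ Subgroup.zpowers E) = q then h.choose else q.out

lemma mk_rep (H : Subgroup G) (E : G) (q : G ⧸ Subgroup.zpowers E) :
    (QuotientGroup.mk (rep H E q) : G ⧸ Subgroup.zpowers E) = q := by
  unfold rep
  split_ifs with h
  · exact h.choose_spec.2
  · exact Quotient.out_eq' q

lemma rep_of_mem (H : Subgroup G) (E : G) (hint : ∀ a : ℤ, E ^ a ∈ H → a = 0) {x : G}
    (hx : x ∈ H) : rep H E (QuotientGroup.mk x) = x := by
  have h : ∃ y ∈ H, (QuotientGroup.mk y : G ⧸ Subgroup.zpowers E) = QuotientGroup.mk x :=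
    ⟨x, hx, rfl⟩
  unfold rep
  rw [dif_pos h]
  have h1 := h.choose_spec
  have h2 := QuotientGroup.eq.1 h1.2
  obtain ⟨a, ha⟩ := Subgroup.mem_zpowers_iff.1 h2
  have h3 : a = 0 := by
    apply hint
    rw [ha]
    exact H.mul_mem (H.inv_mem h1.1) hx
  rw [h3, zpow_zero] at ha
  exact (inv_mul_eq_one.1 ha.symm)

/-- projection of the group ring onto the span of the coset representatives -/
noncomputable def prj (H : Subgroup G) (E : G) : MonoidAlgebra ℤ G →+ MonoidAlgebra ℤ G :=
  lin (fun g => e (rep H E (QuotientGroup.mk g)))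

@[simp] lemma prj_e (H : Subgroup G) (E g : G) :
    prj H E (e g) = e (rep H E (QuotientGroup.mk g)) := by
  simp [prj]

lemma prj_mul (H : Subgroup G) (E : G) (x y : MonoidAlgebra ℤ G) :
    prj H E (x * y) = prj H E (x * prj H E y) := by
  refine induction_e (P := fun x => prj H E (x * y) = prj H E (x * prj H E y)) x ?_ ?_ ?_ ?_
  · simp
  · intro a b ha hb; rw [add_mul, add_mul, map_add, map_add, ha, hb]
  · intro a ha; rw [neg_mul, neg_mul, map_neg, map_neg, ha]
  · intro g
    refine induction_e (P := fun y => prj H E (e g * y) = prj H E (e g * prj H E y)) y ?_ ?_ ?_ ?_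
    · simp
    · intro a b ha hb; rw [mul_add, map_add, map_add, mul_add, map_add, ha, hb]
    · intro a ha; rw [mul_neg, map_neg, map_neg, mul_neg, map_neg, ha]
    · intro k
      rw [prj_e, ← e_mul, ← e_mul, prj_e, prj_e]
      congr 2
      rw [QuotientGroup.eq]
      have h1 : (QuotientGroup.mk k : G ⧸ Subgroup.zpowers E)
          = QuotientGroup.mk (rep H E (QuotientGroup.mk k)) := (mk_rep H E _).symm
      have h2 := QuotientGroup.eq.1 h1
      have h3 : (g * k)⁻¹ * (g * rep H E (QuotientGroup.mk k))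
          = k⁻¹ * rep H E (QuotientGroup.mk k) := by group
      rw [h3]; exact h2

lemma prj_of_mem (H : Subgroup G) (E : G) (hint : ∀ a : ℤ, E ^ a ∈ H → a = 0)
    {x : MonoidAlgebra ℤ G} (hx : x ∈ ZH H) : prj H E x = x := by
  refine ZH_induction (P := fun x => prj H E x = x) ?_ ?_ ?_ ?_ hx
  · simp
  · intro a b ha hb; rw [map_add, ha, hb]
  · intro a ha; rw [map_neg, ha]
  · intro g hg; rw [prj_e, rep_of_mem H E hint hg]

end Rep

/-- The splitting lemma. -/
theorem split (S : NS G) (H C : Subgroup G) (E : G)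
    (hE : E ∈ C)
    (hnorm : ∀ c ∈ C, ∀ h ∈ H, c * h * c⁻¹ ∈ H)
    (hdec : ∀ c ∈ C, ∃ a : ℤ, ∃ h ∈ H, c = h * E ^ a)
    (hint : ∀ a : ℤ, E ^ a ∈ H → a = 0)
    (hN : ∀ i, ∀ h ∈ H, ∀ a : ℤ, h * E ^ a ∈ S.N i → E ^ a ∈ S.N i)
    {n : ℕ} {x : MonoidAlgebra ℤ G} (hx : Del S C n x) (hxH : x ∈ ZH H) : Del S H n x := by
  have hEp : ∀ a : ℤ, ∀ h ∈ H, E ^ a * h * (E ^ a)⁻¹ ∈ H := fun a h hh =>
    hnorm _ (C.zpow_mem hE a) h hh
  -- action of a group element
  have hact : ∀ h ∈ H, ∀ a : ℤ, ∀ u ∈ ZH H,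
      prj H E (e (h * E ^ a) * u) = e h * (e (E ^ a) * u * e (E ^ a)⁻¹) := by
    intro h hh a u hu
    refine ZH_induction (P := fun u => prj H E (e (h * E ^ a) * u)
      = e h * (e (E ^ a) * u * e (E ^ a)⁻¹)) ?_ ?_ ?_ ?_ hu
    · simp
    · intro x y hx hy; rw [mul_add, map_add, hx, hy, mul_add, add_mul, mul_add]
    · intro x hx; rw [mul_neg, map_neg, hx, mul_neg, neg_mul, mul_neg]
    · intro k hk
      rw [← e_mul, prj_e, ← e_mul, ← e_mul, ← e_mul]
      congr 1
      have h1 : (QuotientGroup.mk (h * E ^ a * k) : G ⧸ Subgroup.zpowers E)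
          = QuotientGroup.mk (h * (E ^ a * k * (E ^ a)⁻¹)) := by
        rw [QuotientGroup.eq]
        have : (h * E ^ a * k)⁻¹ * (h * (E ^ a * k * (E ^ a)⁻¹)) = E ^ (-a) := by
          rw [zpow_neg]; group
        rw [this]
        exact Subgroup.mem_zpowers_iff.2 ⟨-a, rfl⟩
      rw [h1]
      exact rep_of_mem H E hint (H.mul_mem hh (hEp a k hk))
  have key : ∀ {n : ℕ} {x : MonoidAlgebra ℤ G}, Del S C n x →
      ∀ (m : ℕ) (u : MonoidAlgebra ℤ G), Del S H m u → Del S H (n + m) (prj H E (x * u)) := by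
    intro n x hx
    induction hx with
    | @unit c hc =>
      intro m u hu
      obtain ⟨a, h, hh, rfl⟩ := hdec c hc
      rw [hact h hh a u hu.mem, zero_add]
      exact Del.mul_left (e_mem_ZH hh) (hu.conj (hEp a))
    | @gen i c hc hi =>
      intro m u hu
      obtain ⟨a, h, hh, rfl⟩ := hdec c hc
      have hEi : E ^ a ∈ S.N i := hN i h hh a hi
      have hhi : h ∈ S.N i := by
        have := (S.N i).mul_mem hi ((S.N i).inv_mem hEi)
        rwa [mul_inv_cancel_right] at this
      rw [sub_mul, one_mul, map_sub, hact h hh a u hu.mem, prj_of_mem H E hint hu.mem]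
      have h1 : e h * (e (E ^ a) * u * e (E ^ a)⁻¹) - u
          = (e h - 1) * (e (E ^ a) * u * e (E ^ a)⁻¹) + (e (E ^ a) * u * e (E ^ a)⁻¹ - u) := by
        rw [sub_mul, one_mul]; abel
      rw [h1]
      exact ((Del.gen hh hhi).mul (hu.conj (hEp a))).add (hu.conj_sub (hEp a) hEi)
    | @mul i j x y _ _ h1 h2 =>
      intro m u hu
      rw [mul_assoc, prj_mul, add_assoc]
      exact h1 _ _ (h2 m u hu)
    | add _ _ h1 h2 =>
      intro m u hu
      rw [add_mul, map_add]
      exact (h1 m u hu).add (h2 m u hu)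
    | neg _ h =>
      intro m u hu
      rw [neg_mul, map_neg]
      exact (h m u hu).neg
    | zero =>
      intro m u hu
      rw [zero_mul, map_zero]; exact Del.zero
    | mono _ hij h =>
      intro m u hu
      exact (h m u hu).mono (by omega)
  have h1 := key hx 0 1 (Del.of_mem (one_mem_ZH H))
  rw [mul_one, prj_of_mem H E hint hxH] at h1
  exact h1.mono (by omega)

end Pool.Agent.H639
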