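import Pool.Agent.H639.Coord
import Pool.Agent.H639.Split

/-!
# Passing from one rational dimension subgroup to the next
-/

set_option autoImplicit false

namespace Pool.Agent.H639

universe u v

variable {G : Type u} [Group G]

section Add

variable {D : Subgroup G} {a : G → ℤ} (ha : ∀ x ∈ D, ∀ y ∈ D, a (x * y) = a x + a y)
include ha

lemma add_one' : a 1 = 0 := by
  have := ha 1 D.one_mem 1 D.one_mem
  rw [mul_one] at this; omega

lemma add_inv' {x : G} (hx : x ∈ D) : a x⁻¹ = - a x := by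
  have := ha x hx x⁻¹ (D.inv_mem hx)
  rw [mul_inv_cancel, add_one' ha] at this; omega

lemma add_pow' {x : G} (hx : x ∈ D) (k : ℕ) : a (x ^ k) = k * a x := by
  induction k with
  | zero => simp [add_one' ha]
  | succ k ih => rw [pow_succ, ha _ (D.pow_mem hx k) _ hx, ih]; push_cast; ring

lemma add_zpow' {x : G} (hx : x ∈ D) (k : ℤ) : a (x ^ k) = k * a x := by
  obtain ⟨n, rfl | rfl⟩ := k.eq_nat_or_neg
  · rw [zpow_natCast, add_pow' ha hx]
  · rw [zpow_neg, zpow_natCast, add_inv' ha (D.pow_mem hx n), add_pow' ha hx]; ring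

end Add

/-- the subgroup of `D` where the coordinates outside `s` vanish -/
def coordSub (D : Subgroup G) {r : ℕ} (a : Fin r → G → ℤ)
    (ha : ∀ j, ∀ x ∈ D, ∀ y ∈ D, a j (x * y) = a j x + a j y) (s : Finset (Fin r)) :
    Subgroup G where
  carrier := {x | x ∈ D ∧ ∀ j, j ∉ s → a j x = 0}
  one_mem' := ⟨D.one_mem, fun j _ => add_one' (ha j)⟩
  mul_mem' := by
    rintro x y ⟨hx, hx'⟩ ⟨hy, hy'⟩
    exact ⟨D.mul_mem hx hy, fun j hj => by rw [ha j x hx y hy, hx' j hj, hy' j hj, add_zero]⟩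
  inv_mem' := by
    rintro x ⟨hx, hx'⟩
    exact ⟨D.inv_mem hx, fun j hj => by rw [add_inv' (ha j) hx, hx' j hj, neg_zero]⟩

theorem level (S : NS G) (X : Subgroup G) {i : ℕ} (hi : 1 ≤ i) (hRN : S.R (i + 1) ≤ S.N i)
    (hprev : S.R i ≤ S.N (i - 1))
    (T : Set G) (hT : T.Finite) (hTX : T ⊆ X ⊓ S.R i)
    (hgen : X ⊓ S.R i ≤ Subgroup.closure T ⊔ S.R (i + 1))
    {n : ℕ} {x : MonoidAlgebra ℤ G} (hx : Del S (X ⊓ S.R i) n x)
    (hxm : x ∈ ZH (X ⊓ S.R (i + 1))) : Del S (X ⊓ S.R (i + 1)) n x := by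
  classical
  obtain ⟨r, a, E, hE, ha, haE, hzero, hN⟩ := S.coords X hi hRN T hT hTX hgen
  set D : Subgroup G := X ⊓ S.R i with hD
  have hcomm : ∀ c ∈ D, ∀ h ∈ D, c * h * c⁻¹ * h⁻¹ ∈ X ⊓ S.R (i + 1) := by
    intro c hc h hh
    refine ⟨X.mul_mem (X.mul_mem (X.mul_mem hc.1 hh.1) (X.inv_mem hc.1)) (X.inv_mem hh.1), ?_⟩
    exact S.R_anti (by omega) (S.R_comm hc.2 hh.2)
  have haconj : ∀ j, ∀ c ∈ D, ∀ h ∈ D, a j (c * h * c⁻¹) = a j h := by
    intro j c hc h hh
    rw [ha j _ (D.mul_mem hc hh) _ (D.inv_mem hc), ha j c hc h hh, add_inv' (ha j) hc]; ring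
  have key : ∀ (s : Finset (Fin r)) {n : ℕ} {x : MonoidAlgebra ℤ G},
      Del S (coordSub D a ha s) n x → x ∈ ZH (X ⊓ S.R (i + 1)) →
      Del S (X ⊓ S.R (i + 1)) n x := by
    intro s
    induction s using Finset.induction_on with
    | empty =>
      intro n x hx _
      refine hx.mono_sub ?_
      rintro y ⟨hy, hy'⟩
      refine ⟨hy.1, (hzero y hy).1 (fun j => hy' j (Finset.notMem_empty j))⟩
    | insert j s hj ih =>
      intro n x hx hxm
      have hR_le : X ⊓ S.R (i + 1) ≤ coordSub D a ha s := by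
        intro y hy
        have hyD : y ∈ D := ⟨hy.1, S.R_anti (Nat.le_succ i) hy.2⟩
        exact ⟨hyD, fun k _ => (hzero y hyD).2 hy.2 k⟩
      refine ih (split S (coordSub D a ha s) (coordSub D a ha (insert j s)) (E j) ?_ ?_ ?_ ?_ ?_
        hx (ZH_mono hR_le hxm)) hxm
      · refine ⟨hE j, fun k hk => ?_⟩
        rw [haE, if_neg]
        rintro rfl
        exact hk (Finset.mem_insert_self _ _)
      · rintro c ⟨hc, hc'⟩ h ⟨hh, hh'⟩
        refine ⟨D.mul_mem (D.mul_mem hc hh) (D.inv_mem hc), fun k hk => ?_⟩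
        rw [haconj k c hc h hh]; exact hh' k hk
      · rintro c ⟨hc, hc'⟩
        refine ⟨a j c, c * (E j) ^ (- a j c), ⟨D.mul_mem hc (D.zpow_mem (hE j) _), fun k hk => ?_⟩,
          ?_⟩
        · rw [ha k _ hc _ (D.zpow_mem (hE j) _), add_zpow' (ha k) (hE j), haE]
          by_cases hkj : k = j
          · subst hkj; rw [if_pos rfl]; ring
          · rw [if_neg hkj, hc' k (by simp [hkj, hk])]; ring
        · rw [zpow_neg]; group
      · rintro m ⟨_, hm⟩
        have := hm j hj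
        rw [add_zpow' (ha j) (hE j), haE, if_pos rfl, mul_one] at this
        exact this
      · rintro l h ⟨hh, hh'⟩ m hl
        have hval : a j (h * (E j) ^ m) = m := by
          rw [ha j h hh _ (D.zpow_mem (hE j) m), hh' j hj, add_zpow' (ha j) (hE j), haE,
            if_pos rfl]; ring
        have hmem : h * (E j) ^ m ∈ D := D.mul_mem hh (D.zpow_mem (hE j) m)
        rcases lt_trichotomy l i with hli | rfl | hli
        · exact S.anti (by omega) (hprev ((S.R i).zpow_mem (hE j).2 m))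
        · have := hN _ hmem hl j
          rwa [hval] at this
        · have h1 : h * (E j) ^ m ∈ S.R (i + 1) :=
            S.N_le_R (by omega) (S.anti (by omega) hl)
          have h2 := (hzero _ hmem).2 h1 j
          rw [hval] at h2
          rw [h2, zpow_zero]; exact (S.N l).one_mem
  refine key Finset.univ (hx.mono_sub ?_) hxm
  intro y hy
  exact ⟨hy, fun j hj => absurd (Finset.mem_univ j) hj⟩

end Pool.Agent.H639
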