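import Pool.Agent.H639.Base2

/-!
# From monoids with a Y-filtration to N-series
-/

set_option autoImplicit false

namespace Pool.Agent.H639

universe u v

/-- A filtration of a monoid by congruences of the kind carried by the monoid of homology
cylinders over a compact oriented surface: `r n` plays the role of `Y_n`-equivalence. -/
structure YFiltration (M : Type u) [Monoid M] where
  /-- the `n`-th congruence, compatible with the multiplication of `M` -/
  r : ℕ → Con M
  /-- the congruences get finer -/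
  anti : ∀ {i j : ℕ}, i ≤ j → ∀ {x y : M}, r j x y → r i x y
  /-- each quotient of `M` by a congruence is a group -/
  inv : ∀ (n : ℕ) (x : M), ∃ y : M, r n (x * y) 1 ∧ r n (y * x) 1
  /-- elements of levels `i` and `j` commute up to level `i + j` -/
  comm : ∀ {i j : ℕ} {x y : M}, 1 ≤ i → 1 ≤ j → r i x 1 → r j y 1 → r (i + j) (x * y) (y * x)

variable {M : Type u} [Monoid M]

/-- The finite type filtration: the subgroup of the monoid ring spanned by the products
`(a₁ - b₁) ⋯ (aₖ - bₖ)` with `r iₗ aₗ bₗ`, `iₗ ≥ 1` and `i₁ + ⋯ + iₖ ≥ n`. -/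
noncomputable def YFiltration.fil (Y : YFiltration M) (n : ℕ) : AddSubgroup (MonoidAlgebra ℤ M) :=
  AddSubgroup.closure {z | ∃ l : List (ℕ × M × M),
    (∀ t ∈ l, 1 ≤ t.1 ∧ Y.r t.1 t.2.1 t.2.2) ∧ n ≤ (l.map fun t => t.1).sum ∧
      z = (l.map fun t => MonoidAlgebra.of ℤ M t.2.1 - MonoidAlgebra.of ℤ M t.2.2).prod}

/-- `v` is a finite type invariant of degree less than `n`: its linear extension vanishes on the
`n`-th term of the finite type filtration. -/
def YFiltration.IsFT (Y : YFiltration M) (n : ℕ) {A : Type v} [AddCommGroup A] (v : M → A) :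
    Prop :=
  ∀ z ∈ Y.fil n, (z.coeff.sum fun m c => c • v m) = 0

lemma lin_eq_sum {A : Type v} [AddCommGroup A] (v : M → A) (z : MonoidAlgebra ℤ M) :
    (z.coeff.sum fun m c => c • v m) = lin v z := by
  rfl

lemma of_eq_e (m : M) : MonoidAlgebra.of ℤ M m = e m := rfl

lemma YFiltration.isFT_iff (Y : YFiltration M) (n : ℕ) {A : Type v} [AddCommGroup A] (v : M → A) :
    Y.IsFT n v ↔ ∀ z ∈ Y.fil n, lin v z = 0 := by
  unfold YFiltration.IsFT
  simp only [lin_eq_sum]

lemma YFiltration.prod_mem (Y : YFiltration M) {n : ℕ} (l : List (ℕ × M × M))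
    (h : ∀ t ∈ l, 1 ≤ t.1 ∧ Y.r t.1 t.2.1 t.2.2) (hn : n ≤ (l.map fun t => t.1).sum) :
    (l.map fun t => e t.2.1 - e t.2.2).prod ∈ Y.fil n :=
  AddSubgroup.subset_closure ⟨l, h, hn, rfl⟩

lemma YFiltration.fil_induction (Y : YFiltration M) {n : ℕ} {P : MonoidAlgebra ℤ M → Prop}
    (h0 : P 0) (hadd : ∀ x y, P x → P y → P (x + y)) (hneg : ∀ x, P x → P (-x))
    (hp : ∀ l : List (ℕ × M × M), (∀ t ∈ l, 1 ≤ t.1 ∧ Y.r t.1 t.2.1 t.2.2) →
      n ≤ (l.map fun t => t.1).sum → P ((l.map fun t => e t.2.1 - e t.2.2).prod))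
    {x : MonoidAlgebra ℤ M} (hx : x ∈ Y.fil n) : P x := by
  induction hx using AddSubgroup.closure_induction with
  | mem x hx => obtain ⟨l, hl, hn, rfl⟩ := hx; exact hp l hl hn
  | zero => exact h0
  | add x y _ _ hx hy => exact hadd x y hx hy
  | neg x _ hx => exact hneg x hx

lemma YFiltration.fil_mono (Y : YFiltration M) {i j : ℕ} (h : i ≤ j) : Y.fil j ≤ Y.fil i := by
  intro x hx
  exact Y.fil_induction (P := fun x => x ∈ Y.fil i) (AddSubgroup.zero_mem _)
    (fun _ _ => AddSubgroup.add_mem _) (fun _ => AddSubgroup.neg_mem _)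
    (fun l hl hn => Y.prod_mem l hl (h.trans hn)) hx

lemma YFiltration.sub_mem_fil (Y : YFiltration M) {n : ℕ} (hn : 1 ≤ n) {a b : M} (h : Y.r n a b) :
    e a - e b ∈ Y.fil n := by
  have := Y.prod_mem (n := n) [(n, a, b)] (by simpa using ⟨hn, h⟩) (by simp)
  simpa using this

lemma YFiltration.fil_mul (Y : YFiltration M) {i j : ℕ} {x y : MonoidAlgebra ℤ M}
    (hx : x ∈ Y.fil i) (hy : y ∈ Y.fil j) : x * y ∈ Y.fil (i + j) := by
  refine Y.fil_induction (P := fun x => x * y ∈ Y.fil (i + j)) ?_ ?_ ?_ ?_ hx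
  · simp
  · intro a b ha hb; rw [add_mul]; exact AddSubgroup.add_mem _ ha hb
  · intro a ha; rw [neg_mul]; exact AddSubgroup.neg_mem _ ha
  · intro l hl hln
    refine Y.fil_induction (P := fun y => (l.map fun t => e t.2.1 - e t.2.2).prod * y
      ∈ Y.fil (i + j)) ?_ ?_ ?_ ?_ hy
    · simp
    · intro a b ha hb; rw [mul_add]; exact AddSubgroup.add_mem _ ha hb
    · intro a ha; rw [mul_neg]; exact AddSubgroup.neg_mem _ ha
    · intro l' hl' hln'
      rw [← List.prod_append, ← List.map_append]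
      refine Y.prod_mem _ ?_ ?_
      · intro t ht
        rcases List.mem_append.1 ht with h | h
        · exact hl t h
        · exact hl' t h
      · rw [List.map_append, List.sum_append]; omega

lemma YFiltration.e_mul_fil (Y : YFiltration M) {n : ℕ} (hn : 1 ≤ n) (m : M)
    {x : MonoidAlgebra ℤ M} (hx : x ∈ Y.fil n) : e m * x ∈ Y.fil n := by
  refine Y.fil_induction (P := fun x => e m * x ∈ Y.fil n) ?_ ?_ ?_ ?_ hx
  · simp
  · intro a b ha hb; rw [mul_add]; exact AddSubgroup.add_mem _ ha hb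
  · intro a ha; rw [mul_neg]; exact AddSubgroup.neg_mem _ ha
  · intro l hl hln
    rcases l with _ | ⟨t, l⟩
    · simp at hln; omega
    · have h1 : e m * (((t :: l).map fun t => e t.2.1 - e t.2.2).prod)
          = ((((t.1, m * t.2.1, m * t.2.2) : ℕ × M × M) :: l).map
              fun t => e t.2.1 - e t.2.2).prod := by
        rw [List.map_cons, List.prod_cons, List.map_cons, List.prod_cons, ← mul_assoc, mul_sub,
          ← e_mul, ← e_mul]
      rw [h1]
      refine Y.prod_mem _ ?_ ?_
      · intro s hs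
        rcases List.mem_cons.1 hs with rfl | h
        · have := hl t (List.mem_cons_self)
          exact ⟨this.1, (Y.r t.1).mul ((Y.r t.1).refl m) this.2⟩
        · exact hl s (List.mem_cons_of_mem _ h)
      · simpa using hln

lemma YFiltration.fil_mul_e (Y : YFiltration M) {n : ℕ} (hn : 1 ≤ n) (m : M)
    {x : MonoidAlgebra ℤ M} (hx : x ∈ Y.fil n) : x * e m ∈ Y.fil n := by
  refine Y.fil_induction (P := fun x => x * e m ∈ Y.fil n) ?_ ?_ ?_ ?_ hx
  · simp
  · intro a b ha hb; rw [add_mul]; exact AddSubgroup.add_mem _ ha hb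
  · intro a ha; rw [neg_mul]; exact AddSubgroup.neg_mem _ ha
  · intro l hl hln
    rcases List.eq_nil_or_concat l with rfl | ⟨l, t, rfl⟩
    · simp at hln; omega
    · rw [List.concat_eq_append] at hl hln ⊢
      have h1 : (((l ++ [t]).map fun t => e t.2.1 - e t.2.2).prod) * e m
          = ((l ++ [((t.1, t.2.1 * m, t.2.2 * m) : ℕ × M × M)]).map
              fun t => e t.2.1 - e t.2.2).prod := by
        rw [List.map_append, List.prod_append, List.map_append, List.prod_append]
        simp only [List.map_cons, List.map_nil, List.prod_cons, List.prod_nil, mul_one]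
        rw [mul_assoc, sub_mul, ← e_mul, ← e_mul]
      rw [h1]
      refine Y.prod_mem _ ?_ ?_
      · intro s hs
        rcases List.mem_append.1 hs with h | h
        · exact hl s (List.mem_append_left _ h)
        · rw [List.mem_singleton] at h
          subst h
          have := hl t (List.mem_append_right _ (List.mem_singleton.2 rfl))
          exact ⟨this.1, (Y.r t.1).mul this.2 ((Y.r t.1).refl m)⟩
      · simpa using hln

lemma YFiltration.mul_fil (Y : YFiltration M) {n : ℕ} (hn : 1 ≤ n) (y : MonoidAlgebra ℤ M)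
    {x : MonoidAlgebra ℤ M} (hx : x ∈ Y.fil n) : y * x ∈ Y.fil n := by
  refine induction_e (P := fun y => y * x ∈ Y.fil n) y ?_ ?_ ?_ ?_
  · simp
  · intro a b ha hb; rw [add_mul]; exact AddSubgroup.add_mem _ ha hb
  · intro a ha; rw [neg_mul]; exact AddSubgroup.neg_mem _ ha
  · intro g; exact Y.e_mul_fil hn g hx

lemma YFiltration.fil_mul' (Y : YFiltration M) {n : ℕ} (hn : 1 ≤ n) (y : MonoidAlgebra ℤ M)
    {x : MonoidAlgebra ℤ M} (hx : x ∈ Y.fil n) : x * y ∈ Y.fil n := by
  refine induction_e (P := fun y => x * y ∈ Y.fil n) y ?_ ?_ ?_ ?_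
  · simp
  · intro a b ha hb; rw [mul_add]; exact AddSubgroup.add_mem _ ha hb
  · intro a ha; rw [mul_neg]; exact AddSubgroup.neg_mem _ ha
  · intro g; exact Y.fil_mul_e hn g hx

/-- equality modulo the filtration is detected by all invariants -/
lemma YFiltration.detect (Y : YFiltration M) (n : ℕ) (x y : M)
    (h : ∀ (A : Type u) [AddCommGroup A] (v : M → A), Y.IsFT n v → v x = v y) :
    e x - e y ∈ Y.fil n := by
  have h1 := h (MonoidAlgebra ℤ M ⧸ Y.fil n) (fun m => QuotientAddGroup.mk (e m)) (by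
    rw [Y.isFT_iff]
    intro z hz
    have h2 : lin (fun m => (QuotientAddGroup.mk (e m) : MonoidAlgebra ℤ M ⧸ Y.fil n))
        = QuotientAddGroup.mk' (Y.fil n) := hom_ext_e (fun m => by simp)
    rw [h2, QuotientAddGroup.mk'_apply, QuotientAddGroup.eq_zero_iff]
    exact hz)
  rw [eq_comm, QuotientAddGroup.eq] at h1
  have h3 : e x - e y = -e y + e x := by abel
  rw [h3]; exact h1

end Pool.Agent.H639
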