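import Pool.Agent.H639.Basic

/-!
# Rational dimension subgroups of an N-series
-/

set_option autoImplicit false

namespace Pool.Agent.H639

universe u v

variable {G : Type u} [Group G]

/-- elements a positive multiple of which has weight at least `i` -/
def NS.Sat (S : NS G) (i : ℕ) : AddSubgroup (MonoidAlgebra ℤ G) where
  carrier := {x | ∃ m : ℕ, 1 ≤ m ∧ Del S (S.N 1) i (m • x)}
  zero_mem' := ⟨1, le_rfl, by rw [smul_zero]; exact Del.zero⟩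
  add_mem' := by
    rintro x y ⟨m, hm, hx⟩ ⟨k, hk, hy⟩
    refine ⟨m * k, Nat.mul_pos hm hk, ?_⟩
    have h1 : (m * k) • (x + y) = k • (m • x) + m • (k • y) := by
      rw [smul_add, smul_smul, smul_smul, mul_comm k m]
    rw [h1]
    exact (hx.nsmul k).add (hy.nsmul m)
  neg_mem' := by
    rintro x ⟨m, hm, hx⟩
    exact ⟨m, hm, by rw [smul_neg]; exact hx.neg⟩

lemma NS.mem_Sat {S : NS G} {i : ℕ} {x : MonoidAlgebra ℤ G} :
    x ∈ S.Sat i ↔ ∃ m : ℕ, 1 ≤ m ∧ Del S (S.N 1) i (m • x) := Iff.rfl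

lemma NS.Sat_of_Del {S : NS G} {i : ℕ} {x : MonoidAlgebra ℤ G} (h : Del S (S.N 1) i x) :
    x ∈ S.Sat i := ⟨1, le_rfl, by rwa [one_smul]⟩

lemma NS.Sat_mono {S : NS G} {i j : ℕ} (h : i ≤ j) : S.Sat j ≤ S.Sat i := by
  rintro x ⟨m, hm, hx⟩
  exact ⟨m, hm, hx.mono h⟩

lemma NS.Sat_mul {S : NS G} {i j : ℕ} {x y : MonoidAlgebra ℤ G} (hx : x ∈ S.Sat i)
    (hy : y ∈ S.Sat j) : x * y ∈ S.Sat (i + j) := by
  obtain ⟨m, hm, hx⟩ := hx
  obtain ⟨k, hk, hy⟩ := hy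
  refine ⟨m * k, Nat.mul_pos hm hk, ?_⟩
  have h1 : (m * k) • (x * y) = (m • x) * (k • y) := by
    rw [smul_mul_smul_comm]
  rw [h1]
  exact hx.mul hy

lemma NS.Sat_mul_left {S : NS G} {i : ℕ} {x y : MonoidAlgebra ℤ G} (hx : x ∈ ZH (S.N 1))
    (hy : y ∈ S.Sat i) : x * y ∈ S.Sat i := by
  have := NS.Sat_mul (NS.Sat_of_Del (Del.of_mem (S := S) hx)) hy
  rwa [zero_add] at this

lemma NS.Sat_mul_right {S : NS G} {i : ℕ} {x y : MonoidAlgebra ℤ G} (hx : x ∈ S.Sat i)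
    (hy : y ∈ ZH (S.N 1)) : x * y ∈ S.Sat i := by
  have := NS.Sat_mul hx (NS.Sat_of_Del (Del.of_mem (S := S) hy))
  rwa [add_zero] at this

lemma NS.Sat_of_nsmul {S : NS G} {i : ℕ} {x : MonoidAlgebra ℤ G} {k : ℕ} (hk : 1 ≤ k)
    (h : k • x ∈ S.Sat i) : x ∈ S.Sat i := by
  obtain ⟨m, hm, hx⟩ := h
  exact ⟨m * k, Nat.mul_pos hm hk, by rwa [mul_smul]⟩

/-- The rational dimension subgroups: `g ∈ N 1` with a positive multiple of `g - 1` of weight at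
least `i`. -/
noncomputable def NS.R (S : NS G) (i : ℕ) : Subgroup G where
  carrier := {g | g ∈ S.N 1 ∧ e g - 1 ∈ S.Sat i}
  one_mem' := ⟨(S.N 1).one_mem, by rw [e_one, sub_self]; exact (S.Sat i).zero_mem⟩
  mul_mem' := by
    rintro g h ⟨hg1, hg⟩ ⟨hh1, hh⟩
    refine ⟨(S.N 1).mul_mem hg1 hh1, ?_⟩
    have h1 : e (g * h) - 1 = (e g - 1) * e h + (e h - 1) := by
      rw [e_mul, sub_mul, one_mul]; abel
    rw [h1]
    exact (S.Sat i).add_mem (NS.Sat_mul_right hg (e_mem_ZH hh1)) hh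
  inv_mem' := by
    rintro g ⟨hg1, hg⟩
    refine ⟨(S.N 1).inv_mem hg1, ?_⟩
    have h1 : e g⁻¹ - 1 = -((e g - 1) * e g⁻¹) := by
      rw [sub_mul, one_mul, e_mul_e_inv]; abel
    rw [h1]
    exact (S.Sat i).neg_mem (NS.Sat_mul_right hg (e_mem_ZH ((S.N 1).inv_mem hg1)))

lemma NS.mem_R {S : NS G} {i : ℕ} {g : G} : g ∈ S.R i ↔ g ∈ S.N 1 ∧ e g - 1 ∈ S.Sat i := Iff.rfl

lemma NS.R_le (S : NS G) (i : ℕ) : S.R i ≤ S.N 1 := fun _ h => h.1

lemma NS.R_anti (S : NS G) {i j : ℕ} (h : i ≤ j) : S.R j ≤ S.R i :=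
  fun _ hg => ⟨hg.1, NS.Sat_mono h hg.2⟩

lemma NS.N_le_R (S : NS G) {i : ℕ} (hi : 1 ≤ i) : S.N i ≤ S.R i := fun _ hg =>
  ⟨S.anti hi hg, NS.Sat_of_Del (Del.gen (S.anti hi hg) hg)⟩

lemma NS.R_one (S : NS G) : S.R 1 = S.N 1 := le_antisymm (S.R_le 1) (S.N_le_R le_rfl)

lemma NS.R_comm (S : NS G) {i j : ℕ} {x y : G} (hx : x ∈ S.R i) (hy : y ∈ S.R j) :
    x * y * x⁻¹ * y⁻¹ ∈ S.R (i + j) := by
  have hx1 := hx.1
  have hy1 := hy.1
  refine ⟨(S.N 1).mul_mem ((S.N 1).mul_mem ((S.N 1).mul_mem hx1 hy1) ((S.N 1).inv_mem hx1))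
    ((S.N 1).inv_mem hy1), ?_⟩
  have h1 : e (x * y * x⁻¹ * y⁻¹) - 1
      = ((e x - 1) * (e y - 1) - (e y - 1) * (e x - 1)) * e (x⁻¹ * y⁻¹) := by
    have h2 : (e x - 1) * (e y - 1) - (e y - 1) * (e x - 1) = e x * e y - e y * e x := by
      rw [sub_mul, mul_sub, sub_mul, mul_sub]; noncomm_ring
    rw [h2, sub_mul, ← e_mul, ← e_mul, ← e_mul, ← e_mul]
    have h3 : y * x * (x⁻¹ * y⁻¹) = 1 := by group
    rw [h3, e_one, mul_assoc (x * y) x⁻¹ y⁻¹]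
  rw [h1]
  refine NS.Sat_mul_right ((S.Sat _).sub_mem (NS.Sat_mul hx.2 hy.2) ?_)
    (e_mem_ZH ((S.N 1).mul_mem ((S.N 1).inv_mem hx1) ((S.N 1).inv_mem hy1)))
  rw [add_comm]; exact NS.Sat_mul hy.2 hx.2

lemma pow_sub_one (g : G) (k : ℕ) : ∃ q : MonoidAlgebra ℤ G,
    q ∈ ZH (Subgroup.zpowers g) ∧
      e (g ^ k) - 1 = k • (e g - 1) + (e g - 1) * (e g - 1) * q := by
  induction k with
  | zero => exact ⟨0, (ZH _).zero_mem, by simp⟩
  | succ k ih =>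
    obtain ⟨q, hq, hk⟩ := ih
    have hg : g ∈ Subgroup.zpowers g := Subgroup.mem_zpowers g
    refine ⟨k • 1 + q * (e g - 1) + q, ?_, ?_⟩
    · refine (ZH _).add_mem ((ZH _).add_mem ((ZH _).nsmul_mem (one_mem_ZH _) k) ?_) hq
      exact mul_mem_ZH hq ((ZH _).sub_mem (e_mem_ZH hg) (one_mem_ZH _))
    · have h1 : e (g ^ (k + 1)) - 1 = (e (g ^ k) - 1) * (e g - 1) + (e (g ^ k) - 1) + (e g - 1) := by
        rw [pow_succ, e_mul, sub_mul, mul_sub, mul_sub]; noncomm_ring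
      rw [h1, hk]
      generalize e g - 1 = a
      rw [add_mul, succ_nsmul, mul_add, mul_add, mul_smul_comm, mul_one, smul_mul_assoc,
        mul_assoc (a * a) q a]
      abel

lemma NS.R_isol (S : NS G) {i : ℕ} {g : G} {k : ℕ} (hk : 1 ≤ k)
    (hg : g ∈ S.N 1) (h : g ^ k ∈ S.R i) : g ∈ S.R i := by
  have key : ∀ j, j ≤ i → g ∈ S.R j := by
    intro j
    induction j with
    | zero => intro _; exact S.R_anti (Nat.zero_le 1) (S.R_one ▸ hg)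
    | succ j ih =>
      intro hj
      rcases Nat.eq_zero_or_pos j with rfl | hj0
      · rw [zero_add, S.R_one]; exact hg
      have hgj := ih (by omega)
      refine ⟨hg, ?_⟩
      obtain ⟨q, hq, hk'⟩ := pow_sub_one g k
      apply NS.Sat_of_nsmul hk
      have h1 : k • (e g - 1) = (e (g ^ k) - 1) - (e g - 1) * (e g - 1) * q := by
        rw [hk']; abel
      rw [h1]
      refine (S.Sat _).sub_mem (NS.Sat_mono hj h.2) ?_
      refine NS.Sat_mul_right (NS.Sat_mono (by omega) (NS.Sat_mul hgj.2 hgj.2)) ?_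
      exact ZH_mono (Subgroup.zpowers_le.2 hg) hq
  exact key i le_rfl

end Pool.Agent.H639
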